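import Mathlib

/-!
# The Lemke-Howson algorithm and smoothed complexity: definitions
-/

open MeasureTheory ProbabilityTheory

namespace Pool.Agent.LH

variable {n : ℕ}

/-- The mixed strategies `x` and `y` form a Nash equilibrium of the bimatrix game `(A, B)`. -/
def IsNash (A B : Fin n → Fin n → ℝ) (x y : Fin n → ℝ) : Prop :=
  x ∈ stdSimplex ℝ (Fin n) ∧ y ∈ stdSimplex ℝ (Fin n) ∧
    (∀ x' ∈ stdSimplex ℝ (Fin n),
      ∑ i, ∑ j, x' i * A i j * y j ≤ ∑ i, ∑ j, x i * A i j * y j) ∧
    (∀ y' ∈ stdSimplex ℝ (Fin n),
      ∑ i, ∑ j, x i * B i j * y' j ≤ ∑ i, ∑ j, x i * B i j * y j)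

/-- The labels of an `n × n` bimatrix game: `Sum.inl i` stands for the `i`-th pure strategy of the
row player and `Sum.inr j` for the `j`-th pure strategy of the column player. -/
abbrev Label (n : ℕ) : Type := Fin n ⊕ Fin n

/-- A simplex tableau with `n` rows in `2 n` variables, one variable for each label. Row `r` is the
equation `∑ l, coef r l * z l = rhs r`, and `basic r` is the basic variable of row `r`. -/
structure Tableau (n : ℕ) where
  /-- the coefficients -/
  coef : Fin n → Label n → ℝ
  /-- the right-hand sides -/
  rhs : Fin n → ℝ
  /-- the basic variable of each row -/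
  basic : Fin n → Label n

/-- The value of the variable `l` in the basic solution of the tableau: the right-hand side of its
row if the variable is basic, and `0` otherwise. -/
noncomputable def Tableau.value (t : Tableau n) (l : Label n) : ℝ :=
  ∑ r, if t.basic r = l then t.rhs r else 0

/-- Row `r` passes the minimum ratio test for the entering variable `e`. -/
def Tableau.IsPivotRow (t : Tableau n) (e : Label n) (r : Fin n) : Prop :=
  0 < t.coef r e ∧ ∀ r', 0 < t.coef r' e → t.rhs r / t.coef r e ≤ t.rhs r' / t.coef r' e

/-- The tableau after pivoting: the variable `e` enters the basis in row `r`. -/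
noncomputable def Tableau.pivot (t : Tableau n) (e : Label n) (r : Fin n) : Tableau n where
  coef r' l := if r' = r then t.coef r l / t.coef r e
    else t.coef r' l - t.coef r' e * (t.coef r l / t.coef r e)
  rhs r' := if r' = r then t.rhs r / t.coef r e
    else t.rhs r' - t.coef r' e * (t.rhs r / t.coef r e)
  basic r' := if r' = r then e else t.basic r'

/-- A state of the Lemke-Howson algorithm: a tableau for each of the two systems `Bᵀ x + s = 1` and
`r + A y = 1`, the variable that enters next, and the system in which it enters. -/
structure State (n : ℕ) where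
  /-- tableau of the system `Bᵀ x + s = 1`; variable `inl i` is `x i`, variable `inr j` is `s j` -/
  P : Tableau n
  /-- tableau of the system `r + A y = 1`; variable `inl i` is `r i`, variable `inr j` is `y j` -/
  Q : Tableau n
  /-- is the next pivot done in the first system? -/
  inP : Bool
  /-- the entering variable of the next pivot -/
  enter : Label n

/-- A constant that makes all payoffs positive when it is added to them. -/
noncomputable def shift (A B : Fin n → Fin n → ℝ) : ℝ :=
  1 + ∑ i, ∑ j, (|A i j| + |B i j|)

/-- The initial state, with missing label `k`: all slack variables are basic, and the variable of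
label `k` that is not basic enters first. All payoffs are made positive by adding a constant. -/
noncomputable def init (A B : Fin n → Fin n → ℝ) (k : Label n) : State n where
  P := { coef := fun j => Sum.elim (fun i => B i j + shift A B) (fun j' => if j' = j then 1 else 0)
         rhs := fun _ => 1
         basic := fun j => Sum.inr j }
  Q := { coef := fun i => Sum.elim (fun i' => if i' = i then 1 else 0) (fun j => A i j + shift A B)
         rhs := fun _ => 1
         basic := fun i => Sum.inl i }
  inP := k.isLeft
  enter := k

/-- One step of complementary pivoting: the entering variable enters the basis of the tableau of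
the current system, in a row that passes the minimum ratio test; the label of the variable that
leaves the basis then enters in the other system. -/
def State.Step (a b : State n) : Prop :=
  (a.inP = true ∧ ∃ r, a.P.IsPivotRow a.enter r ∧
    b = { P := a.P.pivot a.enter r, Q := a.Q, inP := false, enter := a.P.basic r }) ∨
  (a.inP = false ∧ ∃ r, a.Q.IsPivotRow a.enter r ∧
    b = { P := a.P, Q := a.Q.pivot a.enter r, inP := true, enter := a.Q.basic r })

/-- The mixed strategy of the row player in a state: `x` rescaled to sum `1`. -/
noncomputable def State.x (a : State n) (i : Fin n) : ℝ :=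
  a.P.value (Sum.inl i) / ∑ i', a.P.value (Sum.inl i')

/-- The mixed strategy of the column player in a state: `y` rescaled to sum `1`. -/
noncomputable def State.y (a : State n) (j : Fin n) : ℝ :=
  a.Q.value (Sum.inr j) / ∑ j', a.Q.value (Sum.inr j')

/-- `a 0, a 1, ..., a s` is a run of the Lemke-Howson algorithm with missing label `k` that makes
`s` pivots. The algorithm stops when the missing label `k` leaves the basis. -/
def IsRun (A B : Fin n → Fin n → ℝ) (k : Label n) (s : ℕ) (a : ℕ → State n) : Prop :=
  a 0 = init A B k ∧ ∀ j < s, (j ≠ 0 → (a j).enter ≠ k) ∧ (a j).Step (a (j + 1))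

/-- The number of pivots that the Lemke-Howson algorithm with missing label `k` makes until it has
found a Nash equilibrium of the bimatrix game `(A, B)`. (If the ratio test leaves a choice, which
cannot happen in a nondegenerate game, this is the number for the best choice.) -/
noncomputable def pivots (A B : Fin n → Fin n → ℝ) (k : Label n) : ℕ∞ :=
  ⨅ (s : ℕ) (a : ℕ → State n) (_ : IsRun A B k s a) (_ : IsNash A B (a s).x (a s).y), (s : ℕ∞)

/-- The game `(A, B)` is nondegenerate: a mixed strategy with support of size `s` has at most `s`
pure best responses. -/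
def Nondegenerate (A B : Fin n → Fin n → ℝ) : Prop :=
  (∀ x ∈ stdSimplex ℝ (Fin n), Nat.card {j // ∀ j', ∑ i, x i * B i j' ≤ ∑ i, x i * B i j} ≤
    Nat.card {i // x i ≠ 0}) ∧
  (∀ y ∈ stdSimplex ℝ (Fin n), Nat.card {i // ∀ i', ∑ j, A i' j * y j ≤ ∑ j, A i j * y j} ≤
    Nat.card {j // y j ≠ 0})

/-- Polynomial smoothed complexity: `noise σ` is the law of one perturbation variable of magnitude
`σ`, and `time n A B` is the running time on the `n × n` game `(A, B)`. For some polynomial `p`,
for all `n ≥ 1`, all `σ > 0` and all positively normalized `n × n` games, the expected running time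
on the perturbed game is at most `p (n, 1 / σ)`. -/
def PolynomialSmoothedComplexity (noise : ℝ → Measure ℝ)
    (time : (n : ℕ) → (Fin n → Fin n → ℝ) → (Fin n → Fin n → ℝ) → ℕ∞) : Prop :=
  ∃ p : MvPolynomial (Fin 2) ℝ, ∀ n : ℕ, 0 < n → ∀ σ : ℝ, 0 < σ → ∀ A B : Fin n → Fin n → ℝ,
    (∀ i j, A i j ∈ Set.Icc 0 1) → (∀ i j, B i j ∈ Set.Icc 0 1) →
      ∫⁻ R : Fin 2 × Fin n × Fin n → ℝ,
        ((time n (fun i j => A i j + R (0, i, j)) (fun i j => B i j + R (1, i, j)) : ℕ∞) : ENNReal)
          ∂(Measure.pi fun _ => noise σ) ≤
        ENNReal.ofReal (MvPolynomial.eval ![(n : ℝ), 1 / σ] p)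

/-- The uniform distribution on `[-σ, σ]`. -/
noncomputable def uniformNoise (σ : ℝ) : Measure ℝ := ProbabilityTheory.cond volume (Set.Icc (-σ) σ)

/-- The centred Gaussian distribution with variance `σ ^ 2`. -/
noncomputable def gaussianNoise (σ : ℝ) : Measure ℝ := gaussianReal 0 (Real.toNNReal (σ ^ 2))

end Pool.Agent.LH
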