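import Mathlib

/-!
# The hard game

Blocks of three strategies, arranged in two chains of `m + 1` blocks each.
-/

namespace Pool.Agent.LH

open Finset

variable {m : ℕ}

/-- The blocks. -/
abbrev Block (m : ℕ) : Type := Bool × Fin (m + 1)

/-- The strategies. -/
abbrev Strat (m : ℕ) : Type := Block m × Fin 3

/-- The mass of a block. -/
def mass (x : Strat m → ℝ) (b : Block m) : ℝ := ∑ a, x (b, a)

/-- The total mass. -/
def total (x : Strat m → ℝ) : ℝ := ∑ p, x p

/-- The number of blocks. -/
def NN (m : ℕ) : ℝ := 2 * ((m : ℝ) + 1)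

/-- The gates. -/
noncomputable def gate (x : Strat m → ℝ) (h : Bool) (i : Fin (m + 1)) : Fin 3 → ℝ :=
  Fin.cases (motive := fun _ => Fin 3 → ℝ)
    (![0, 3 / (4 * NN m) * total x - mass x (h, 0), - mass x (h, 0)])
    (fun j => ![0, x ((h, j.castSucc), 1) - mass x (h, j.castSucc) / 4,
      3 * x ((h, j.castSucc), 1) - 7 / 4 * mass x (h, j.castSucc)]) i

/-- The payoffs. -/
noncomputable def pay (x : Strat m → ℝ) (p : Strat m) : ℝ :=
  -32 * mass x p.1 + gate x p.1.1 p.1.2 p.2

theorem gate_zero (x : Strat m → ℝ) (h : Bool) : gate x h 0 =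
    ![0, 3 / (4 * NN m) * total x - mass x (h, 0), - mass x (h, 0)] := rfl

theorem gate_succ (x : Strat m → ℝ) (h : Bool) (j : Fin m) : gate x h j.succ =
    ![0, x ((h, j.castSucc), 1) - mass x (h, j.castSucc) / 4,
      3 * x ((h, j.castSucc), 1) - 7 / 4 * mass x (h, j.castSucc)] := rfl

theorem gate_at_zero (x : Strat m → ℝ) (h : Bool) (i : Fin (m + 1)) : gate x h i 0 = 0 := by
  refine Fin.cases ?_ (fun j => ?_) i
  · rw [gate_zero]; rfl
  · rw [gate_succ]; rfl

theorem total_eq (x : Strat m → ℝ) : total x = ∑ b, mass x b := by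
  unfold total mass
  rw [Fintype.sum_prod_type]

theorem NN_pos : 0 < NN m := by unfold NN; positivity

theorem card_block : (Fintype.card (Block m) : ℝ) = NN m := by
  unfold NN
  simp [Fintype.card_prod]

/-- Linearity of the payoffs. -/
theorem pay_linear (x : Strat m → ℝ) (p : Strat m) :
    pay x p = ∑ q, x q * pay (Pi.single q 1) p := by
  have hadd : ∀ x y : Strat m → ℝ, pay (x + y) p = pay x p + pay y p := by
    intro x y
    obtain ⟨⟨h, i⟩, a⟩ := p
    unfold pay
    have hm : ∀ b, mass (x + y) b = mass x b + mass y b := by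
      intro b; unfold mass; rw [← Finset.sum_add_distrib]; rfl
    have ht : total (x + y) = total x + total y := by
      unfold total; rw [← Finset.sum_add_distrib]; rfl
    have hg : gate (x + y) h i a = gate x h i a + gate y h i a := by
      refine Fin.cases ?_ (fun j => ?_) i
      · rw [gate_zero, gate_zero, gate_zero, hm, ht]
        fin_cases a <;> simp <;> ring
      · rw [gate_succ, gate_succ, gate_succ, hm]
        fin_cases a <;> simp <;> ring
    rw [hm]
    change -32 * (mass x (h, i) + mass y (h, i)) + gate (x + y) h i a = _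
    rw [hg]
    ring
  have hsmul : ∀ (c : ℝ) (x : Strat m → ℝ), pay (c • x) p = c * pay x p := by
    intro c x
    obtain ⟨⟨h, i⟩, a⟩ := p
    unfold pay
    have hm : ∀ b, mass (c • x) b = c * mass x b := by
      intro b; unfold mass; rw [Finset.mul_sum]; rfl
    have ht : total (c • x) = c * total x := by
      unfold total; rw [Finset.mul_sum]; rfl
    have hg : gate (c • x) h i a = c * gate x h i a := by
      refine Fin.cases ?_ (fun j => ?_) i
      · rw [gate_zero, gate_zero, hm, ht]
        fin_cases a <;> simp <;> ring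
      · rw [gate_succ, gate_succ, hm]
        fin_cases a <;> simp <;> ring
    rw [hm]
    change -32 * (c * mass x (h, i)) + gate (c • x) h i a = _
    rw [hg]
    ring
  let f : (Strat m → ℝ) →ₗ[ℝ] ℝ :=
    { toFun := fun x => pay x p
      map_add' := hadd
      map_smul' := hsmul }
  have h1 := LinearMap.pi_apply_eq_sum_univ f x
  change pay x p = _ at h1
  rw [h1]
  refine Finset.sum_congr rfl (fun q _ => ?_)
  have h2 : (fun j => if q = j then (1 : ℝ) else 0) = Pi.single q 1 := by
    ext j
    by_cases hj : q = j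
    · subst hj; simp
    · rw [if_neg hj, Pi.single_eq_of_ne (fun h => hj h.symm)]
  rw [h2]
  rfl

theorem mass_nonneg {x : Strat m → ℝ} (hx : ∀ p, 0 ≤ x p) (b : Block m) : 0 ≤ mass x b :=
  Finset.sum_nonneg (fun a _ => hx (b, a))

theorem mass_le_total {x : Strat m → ℝ} (hx : ∀ p, 0 ≤ x p) (b : Block m) :
    mass x b ≤ total x := by
  rw [total_eq]
  exact Finset.single_le_sum (fun b _ => mass_nonneg hx b) (Finset.mem_univ b)

theorem le_mass {x : Strat m → ℝ} (hx : ∀ p, 0 ≤ x p) (b : Block m) (a : Fin 3) :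
    x (b, a) ≤ mass x b :=
  Finset.single_le_sum (f := fun a => x (b, a)) (fun a _ => hx (b, a)) (Finset.mem_univ a)

theorem mass_eq (x : Strat m → ℝ) (b : Block m) : mass x b = x (b, 0) + x (b, 1) + x (b, 2) := by
  unfold mass
  rw [Fin.sum_univ_three]

/-- An upper bound for the gates. -/
noncomputable def gbound (x : Strat m → ℝ) (b : Block m) : ℝ :=
  Fin.cases (motive := fun _ => ℝ) (3 / (4 * NN m) * total x)
    (fun j => 5 / 4 * mass x (b.1, j.castSucc)) b.2

theorem gate_le {x : Strat m → ℝ} (hx : ∀ p, 0 ≤ x p) (h : Bool) (i : Fin (m + 1)) (a : Fin 3) :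
    gate x h i a ≤ gbound x (h, i) := by
  have ht : 0 ≤ total x := Finset.sum_nonneg (fun p _ => hx p)
  have hN := NN_pos (m := m)
  unfold gbound
  refine Fin.cases ?_ (fun j => ?_) i
  · rw [gate_zero]
    have h1 := mass_nonneg hx (h, 0)
    have h2 : 0 ≤ 3 / (4 * NN m) * total x := by positivity
    fin_cases a <;> simp <;> linarith
  · rw [gate_succ]
    have h1 := mass_nonneg hx (h, j.castSucc)
    have h2 := le_mass hx (h, j.castSucc) 1
    fin_cases a <;> simp <;> linarith

theorem sum_gbound {x : Strat m → ℝ} (hx : ∀ p, 0 ≤ x p) (hm : 1 ≤ m) :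
    ∑ b, gbound x b ≤ 13 / 8 * total x := by
  have ht : 0 ≤ total x := Finset.sum_nonneg (fun p _ => hx p)
  have hN := NN_pos (m := m)
  have hN4 : 4 ≤ NN m := by
    unfold NN
    have : (1 : ℝ) ≤ m := by exact_mod_cast hm
    linarith
  rw [Fintype.sum_prod_type]
  have h1 : ∀ h : Bool, ∑ i, gbound x (h, i) ≤ 3 / (4 * NN m) * total x +
      5 / 4 * ∑ i, mass x (h, i) := by
    intro h
    rw [Fin.sum_univ_succ]
    have h2 : ∑ i, mass x (h, i) = ∑ i : Fin m, mass x (h, i.castSucc) + mass x (h, Fin.last m) :=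
      Fin.sum_univ_castSucc _
    have h3 : ∑ i : Fin m, gbound x (h, i.succ) = 5 / 4 * ∑ i : Fin m, mass x (h, i.castSucc) := by
      rw [Finset.mul_sum]
      rfl
    have h4 := mass_nonneg hx (h, Fin.last m)
    rw [h2, h3]
    change 3 / (4 * NN m) * total x + _ ≤ _
    linarith
  have h6 : total x = ∑ h : Bool, ∑ i, mass x (h, i) := by
    rw [total_eq, Fintype.sum_prod_type]
  have h7 : 3 / (4 * NN m) ≤ 3 / 16 := by
    rw [div_le_div_iff₀ (by positivity) (by norm_num)]
    linarith
  have h8 : 3 / (4 * NN m) * total x ≤ 3 / 16 * total x := mul_le_mul_of_nonneg_right h7 ht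
  rw [Fintype.sum_bool] at h6 ⊢
  have h9 := h1 true
  have h10 := h1 false
  linarith

/-- Bounds for the payoffs. -/
theorem pay_bounds {x : Strat m → ℝ} (hx : ∀ p, 0 ≤ x p) (hm : 1 ≤ m) (p : Strat m) :
    -34 * total x ≤ pay x p ∧ pay x p ≤ 2 * total x := by
  obtain ⟨⟨h, i⟩, a⟩ := p
  have ht : 0 ≤ total x := Finset.sum_nonneg (fun p _ => hx p)
  have hN := NN_pos (m := m)
  have hN4 : 4 ≤ NN m := by
    unfold NN
    have : (1 : ℝ) ≤ m := by exact_mod_cast hm
    linarith
  have h7 : 3 / (4 * NN m) ≤ 3 / 16 := by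
    rw [div_le_div_iff₀ (by positivity) (by norm_num)]
    linarith
  have h8 : 3 / (4 * NN m) * total x ≤ 3 / 16 * total x := mul_le_mul_of_nonneg_right h7 ht
  have h9 : 0 ≤ 3 / (4 * NN m) * total x := by positivity
  have h1 := mass_nonneg hx (h, i)
  have h2 := mass_le_total hx (h, i)
  unfold pay
  change _ ≤ -32 * mass x (h, i) + gate x h i a ∧ -32 * mass x (h, i) + gate x h i a ≤ _
  revert h1 h2
  refine Fin.cases ?_ (fun j => ?_) i
  · intro h1 h2
    rw [gate_zero]
    fin_cases a <;> simp <;> constructor <;> linarith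
  · intro h1 h2
    rw [gate_succ]
    have h3 := mass_nonneg hx (h, j.castSucc)
    have h4 := mass_le_total hx (h, j.castSucc)
    have h5 := hx ((h, j.castSucc), 1)
    have h6 := le_mass hx (h, j.castSucc) 1
    fin_cases a <;> simp <;> constructor <;> linarith

/-- Approximate equilibrium conditions at the level `-W` for the blocks in `T`. -/
structure Approx (ε W : ℝ) (T : Finset (Block m)) (x : Strat m → ℝ) : Prop where
  nonneg : ∀ p, 0 ≤ x p
  pos : 0 < total x
  upper : ∀ p, pay x p ≤ -W + ε * total x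
  lower : ∀ p : Strat m, p.1 ∈ T → 0 < x p → -W - ε * total x ≤ pay x p

variable {ε W : ℝ} {T : Finset (Block m)} {x : Strat m → ℝ}

theorem Approx.mass_ge (h : Approx ε W T x) (b : Block m) :
    W - ε * total x ≤ 32 * mass x b := by
  have h1 := h.upper (b, 0)
  unfold pay at h1
  rw [gate_at_zero] at h1
  change -32 * mass x b + 0 ≤ _ at h1
  linarith

theorem Approx.mass_le (h : Approx ε W T x) (b : Block m) (hb : b ∈ T) (hpos : 0 < mass x b) :
    32 * mass x b ≤ W + ε * total x + gbound x b := by
  have h1 : ∃ a, 0 < x (b, a) := by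
    by_contra hcon
    push Not at hcon
    have : mass x b ≤ 0 := Finset.sum_nonpos (fun a _ => hcon a)
    linarith
  obtain ⟨a, ha⟩ := h1
  have h2 := h.lower (b, a) hb ha
  have h3 := gate_le h.nonneg b.1 b.2 a
  unfold pay at h2
  change _ ≤ -32 * mass x b + gate x b.1 b.2 a at h2
  linarith

/-- If all the mass outside some small part is in the good blocks then the level is high. -/
theorem Approx.level (h : Approx ε W T x) (hm : 1 ≤ m)
    (hT : 13 / 8 * total x ≤ 32 * ∑ b ∈ T, mass x b) :
    32 * ∑ b ∈ T, mass x b - 13 / 8 * total x ≤ NN m * (W + ε * total x) := by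
  classical
  set V := W + ε * total x with hV
  have h1 : ∑ b ∈ T, mass x b = ∑ b ∈ T.filter (fun b => 0 < mass x b), mass x b := by
    symm
    apply Finset.sum_filter_of_ne
    intro b _ hb
    exact lt_of_le_of_ne (mass_nonneg h.nonneg b) (Ne.symm hb)
  have hgn : ∀ b, 0 ≤ gbound x b := by
    intro b
    have := gate_le h.nonneg b.1 b.2 0
    rwa [gate_at_zero] at this
  have h2 : 32 * ∑ b ∈ T.filter (fun b => 0 < mass x b), mass x b ≤
      (T.filter (fun b => 0 < mass x b)).card * V +
        ∑ b ∈ T.filter (fun b => 0 < mass x b), gbound x b := by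
    rw [Finset.mul_sum, ← nsmul_eq_mul, ← Finset.sum_const, ← Finset.sum_add_distrib]
    refine Finset.sum_le_sum (fun b hb => ?_)
    rw [Finset.mem_filter] at hb
    exact h.mass_le b hb.1 hb.2
  have h3 : ∑ b ∈ T.filter (fun b => 0 < mass x b), gbound x b ≤ 13 / 8 * total x :=
    (Finset.sum_le_sum_of_subset_of_nonneg (Finset.subset_univ _)
      (fun b _ _ => hgn b)).trans (sum_gbound h.nonneg hm)
  rw [h1] at hT ⊢
  have h4 : ((T.filter (fun b => 0 < mass x b)).card : ℝ) ≤ NN m := by
    rw [← card_block]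
    exact_mod_cast Finset.card_le_univ _
  have h5 : 0 ≤ V ∨ V < 0 := le_or_gt 0 V
  rcases h5 with h5 | h5
  · have h6 := mul_le_mul_of_nonneg_right h4 h5
    linarith
  · have h6 : ((T.filter (fun b => 0 < mass x b)).card : ℝ) * V ≤ 0 :=
      mul_nonpos_of_nonneg_of_nonpos (Nat.cast_nonneg _) h5.le
    have h7 : 32 * ∑ b ∈ T.filter (fun b => 0 < mass x b), mass x b = 13 / 8 * total x := by
      linarith
    have h8 : ((T.filter (fun b => 0 < mass x b)).card : ℝ) * V = 0 := by linarith
    rcases mul_eq_zero.1 h8 with h9 | h9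
    · have h10 : T.filter (fun b => 0 < mass x b) = ∅ := by
        rw [← Finset.card_eq_zero]; exact_mod_cast h9
      rw [h10] at h7
      have := h.pos
      simp at h7
      linarith
    · linarith

/-- An upper bound for the level. -/
theorem Approx.level_le (h : Approx ε W T x) (T' : Finset (Block m)) :
    T'.card * (W - ε * total x) ≤ 32 * ∑ b ∈ T', mass x b := by
  rw [Finset.mul_sum, ← nsmul_eq_mul, ← Finset.sum_const]
  exact Finset.sum_le_sum (fun b _ => h.mass_ge b)

/-- Every block has mass at least `3 / 8` of the average. -/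
theorem Approx.mass_lower (h : Approx ε W T x) (hm : 1 ≤ m) (hε : 32 * ε * NN m ≤ 1)
    (hT : total x ≤ 2 * ∑ b ∈ T, mass x b) (b : Block m) :
    3 * total x ≤ 8 * (NN m * mass x b) := by
  have hN := NN_pos (m := m)
  have h1 := h.level hm (by have := h.pos; linarith)
  have h2 := h.mass_ge b
  have h3 : NN m * (W - ε * total x) ≤ NN m * (32 * mass x b) :=
    mul_le_mul_of_nonneg_left h2 hN.le
  have h4 : 32 * ε * NN m * total x ≤ 1 * total x := mul_le_mul_of_nonneg_right hε h.pos.le
  have h5 : NN m * (W + ε * total x) = NN m * (W - ε * total x) + 2 * (ε * NN m * total x) := by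
    ring
  nlinarith [h.pos]

/-- Comparison of two strategies of a good block. -/
theorem Approx.compare (h : Approx ε W T x) {c : Bool} {i : Fin (m + 1)} (hb : (c, i) ∈ T)
    {a : Fin 3} (ha : 0 < x ((c, i), a)) (a' : Fin 3) :
    gate x c i a' ≤ gate x c i a + 2 * (ε * total x) := by
  have h1 := h.lower ((c, i), a) hb ha
  have h2 := h.upper ((c, i), a')
  unfold pay at h1 h2
  change _ ≤ -32 * mass x (c, i) + gate x c i a at h1
  change -32 * mass x (c, i) + gate x c i a' ≤ _ at h2
  linarith

theorem Approx.small (h : Approx ε W T x) (hm : 1 ≤ m) (hε : 32 * ε * NN m ≤ 1)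
    (hT : total x ≤ 2 * ∑ b ∈ T, mass x b) (b : Block m) :
    8 * (ε * total x) < mass x b := by
  have hN := NN_pos (m := m)
  have h1 := h.mass_lower hm hε hT b
  have h4 : 32 * ε * NN m * total x ≤ 1 * total x := mul_le_mul_of_nonneg_right hε h.pos.le
  have h5 : NN m * (8 * (ε * total x)) < NN m * mass x b := by
    have := h.pos
    nlinarith
  exact lt_of_mul_lt_mul_left h5 hN.le

/-- The next block is off if the fraction is `0`. -/
theorem Approx.next_of_zero (h : Approx ε W T x) (hm : 1 ≤ m) (hε : 32 * ε * NN m ≤ 1)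
    (hT : total x ≤ 2 * ∑ b ∈ T, mass x b) {c : Bool} {j : Fin m} (hb : (c, j.succ) ∈ T)
    (h0 : x ((c, j.castSucc), 1) = 0) : x ((c, j.succ), 1) = 0 := by
  by_contra hne
  have hpos : 0 < x ((c, j.succ), 1) := lt_of_le_of_ne (h.nonneg _) (Ne.symm hne)
  have h1 := h.compare hb hpos 0
  rw [gate_succ] at h1
  have h2 := h.small hm hε hT (c, j.castSucc)
  simp [h0] at h1
  linarith

/-- The next block is off if the fraction is `1`. -/
theorem Approx.next_of_one (h : Approx ε W T x) (hm : 1 ≤ m) (hε : 32 * ε * NN m ≤ 1)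
    (hT : total x ≤ 2 * ∑ b ∈ T, mass x b) {c : Bool} {j : Fin m} (hb : (c, j.succ) ∈ T)
    (h0 : x ((c, j.castSucc), 1) = mass x (c, j.castSucc)) : x ((c, j.succ), 1) = 0 := by
  by_contra hne
  have hpos : 0 < x ((c, j.succ), 1) := lt_of_le_of_ne (h.nonneg _) (Ne.symm hne)
  have h1 := h.compare hb hpos 2
  rw [gate_succ] at h1
  have h2 := h.small hm hε hT (c, j.castSucc)
  have h3 := h.pos
  simp [h0] at h1
  have h4 := mass_nonneg h.nonneg (c, j.castSucc)
  linarith

/-- The next block is on if the fraction is `1 / 2`. -/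
theorem Approx.next_of_half (h : Approx ε W T x) (hm : 1 ≤ m) (hε : 32 * ε * NN m ≤ 1)
    (hT : total x ≤ 2 * ∑ b ∈ T, mass x b) {c : Bool} {j : Fin m} (hb : (c, j.succ) ∈ T)
    (h0 : x ((c, j.castSucc), 1) = mass x (c, j.castSucc) / 2) :
    x ((c, j.succ), 1) = mass x (c, j.succ) := by
  have h2 := h.small hm hε hT (c, j.castSucc)
  have h4 := mass_nonneg h.nonneg (c, j.castSucc)
  have e0 : x ((c, j.succ), 0) = 0 := by
    by_contra hne
    have hpos : 0 < x ((c, j.succ), 0) := lt_of_le_of_ne (h.nonneg _) (Ne.symm hne)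
    have h1 := h.compare hb hpos 1
    rw [gate_succ] at h1
    simp [h0] at h1
    linarith
  have e2 : x ((c, j.succ), 2) = 0 := by
    by_contra hne
    have hpos : 0 < x ((c, j.succ), 2) := lt_of_le_of_ne (h.nonneg _) (Ne.symm hne)
    have h1 := h.compare hb hpos 1
    rw [gate_succ] at h1
    simp [h0] at h1
    linarith
  rw [mass_eq, e0, e2]
  ring

/-- At the start of the window the first block is on. -/
theorem Approx.first_on (h : Approx ε W T x) (hm : 1 ≤ m) (hε : 32 * ε * NN m ≤ 1)
    {b0 : Block m} (hTe : T = univ.erase b0) (hhalf : 2 * mass x b0 = total x) {c : Bool}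
    (hb : (c, (0 : Fin (m + 1))) ∈ T) : x ((c, 0), 1) = mass x (c, 0) := by
  have hN := NN_pos (m := m)
  have hN4 : 4 ≤ NN m := by
    unfold NN
    have : (1 : ℝ) ≤ m := by exact_mod_cast hm
    linarith
  have hS := h.pos
  have hsum : ∑ b ∈ T, mass x b = total x / 2 := by
    rw [hTe, total_eq]
    have h1 := Finset.add_sum_erase univ (mass x) (Finset.mem_univ b0)
    rw [← total_eq] at h1 ⊢
    linarith
  have hT : total x ≤ 2 * ∑ b ∈ T, mass x b := by rw [hsum]; linarith
  have h2 := h.small hm hε hT (c, 0)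
  have h4 := mass_nonneg h.nonneg (c, 0)
  have hεS : 32 * ε * NN m * total x ≤ 1 * total x := mul_le_mul_of_nonneg_right hε hS.le
  have hlev := h.level_le T
  have hcard : ((T.card : ℕ) : ℝ) = NN m - 1 := by
    rw [hTe, Finset.card_erase_of_mem (Finset.mem_univ _), Finset.card_univ, ← card_block]
    rw [Nat.cast_sub]
    · simp
    · exact Fintype.card_pos
  rw [hcard, hsum] at hlev
  have e0 : x ((c, 0), 0) = 0 := by
    by_contra hne
    have hpos : 0 < x ((c, 0), 0) := lt_of_le_of_ne (h.nonneg _) (Ne.symm hne)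
    have h1 := h.compare hb hpos 1
    rw [gate_zero] at h1
    simp at h1
    have h3 := h.lower ((c, 0), 0) hb hpos
    unfold pay at h3
    change _ ≤ -32 * mass x (c, 0) + gate x c 0 0 at h3
    rw [gate_at_zero] at h3
    -- `3 / (4 N) S - mass ≤ 2 ε S`, `32 mass ≤ W + ε S`, `(N - 1) (W - ε S) ≤ 16 S`
    have h5 : NN m * (3 / (4 * NN m) * total x) = 3 / 4 * total x := by
      field_simp
    have h6 : NN m * (3 / (4 * NN m) * total x) ≤ NN m * (mass x (c, 0) + 2 * (ε * total x)) :=
      mul_le_mul_of_nonneg_left (by linarith) hN.le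
    rw [h5] at h6
    have h7 : NN m * (32 * mass x (c, 0)) ≤ NN m * (W + ε * total x) :=
      mul_le_mul_of_nonneg_left (by linarith) hN.le
    -- 24 S ≤ N W + N ε S + 64 N ε S
    have h8 : 24 * total x ≤ NN m * W + 65 * (ε * NN m * total x) := by nlinarith
    have h9 : 24 * total x - 65 * (ε * NN m * total x) ≤ NN m * W := by linarith
    have h10 : 21 * total x ≤ NN m * (W - ε * total x) := by nlinarith
    have h11 : (NN m - 1) * (21 * total x) ≤ (NN m - 1) * (NN m * (W - ε * total x)) :=
      mul_le_mul_of_nonneg_left h10 (by linarith)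
    have h12 : NN m * ((NN m - 1) * (W - ε * total x)) ≤ NN m * (32 * (total x / 2)) :=
      mul_le_mul_of_nonneg_left hlev hN.le
    nlinarith
  have e2 : x ((c, 0), 2) = 0 := by
    by_contra hne
    have hpos : 0 < x ((c, 0), 2) := lt_of_le_of_ne (h.nonneg _) (Ne.symm hne)
    have h1 := h.compare hb hpos 0
    rw [gate_zero] at h1
    simp at h1
    linarith
  rw [mass_eq, e0, e2]
  ring

/-- At an equilibrium the first block is off. -/
theorem Approx.first_off (h : Approx ε W univ x) (hm : 1 ≤ m) (hε : 32 * ε * NN m ≤ 1)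
    (c : Bool) : x ((c, 0), 1) = 0 := by
  have hN := NN_pos (m := m)
  have hS := h.pos
  by_contra hne
  have hpos : 0 < x ((c, 0), 1) := lt_of_le_of_ne (h.nonneg _) (Ne.symm hne)
  have h1 := h.compare (Finset.mem_univ _) hpos 0
  rw [gate_zero] at h1
  simp at h1
  have hlev := h.level hm (by rw [← total_eq]; linarith)
  rw [← total_eq] at hlev
  have h2 := h.mass_ge (c, 0)
  have hεS : 32 * ε * NN m * total x ≤ 1 * total x := mul_le_mul_of_nonneg_right hε hS.le
  have h5 : NN m * (3 / (4 * NN m) * total x) = 3 / 4 * total x := by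
    field_simp
  have h6 : NN m * mass x (c, 0) ≤ NN m * (3 / (4 * NN m) * total x + 2 * (ε * total x)) :=
    mul_le_mul_of_nonneg_left (by linarith) hN.le
  rw [mul_add, h5] at h6
  have h7 : NN m * (W - ε * total x) ≤ NN m * (32 * mass x (c, 0)) :=
    mul_le_mul_of_nonneg_left h2 hN.le
  nlinarith

/-- At an equilibrium every block has less than half of the mass. -/
theorem Approx.lt_half (h : Approx ε W univ x) (hm : 1 ≤ m) (hε : 32 * ε * NN m ≤ 1)
    (hε0 : 0 ≤ ε) (b : Block m) : 2 * mass x b < total x := by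
  have hN := NN_pos (m := m)
  have hN4 : 4 ≤ NN m := by
    unfold NN
    have : (1 : ℝ) ≤ m := by exact_mod_cast hm
    linarith
  have hS := h.pos
  by_contra hge
  push Not at hge
  have h1 := h.mass_le b (Finset.mem_univ _) (by linarith)
  have h2 := h.level_le univ
  rw [← total_eq, Finset.card_univ, card_block] at h2
  have hεS : 32 * ε * NN m * total x ≤ 1 * total x := mul_le_mul_of_nonneg_right hε hS.le
  have hε1 : ε * total x * 4 ≤ ε * total x * NN m :=
    mul_le_mul_of_nonneg_left hN4 (mul_nonneg hε0 hS.le)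
  have h3 : gbound x b ≤ 5 / 4 * total x := by
    obtain ⟨c, i⟩ := b
    unfold gbound
    refine Fin.cases ?_ (fun j => ?_) i
    · change 3 / (4 * NN m) * total x ≤ _
      have h7 : 3 / (4 * NN m) ≤ 3 / 16 := by
        rw [div_le_div_iff₀ (by positivity) (by norm_num)]
        linarith
      have h8 : 3 / (4 * NN m) * total x ≤ 3 / 16 * total x :=
        mul_le_mul_of_nonneg_right h7 hS.le
      linarith
    · change 5 / 4 * mass x (c, j.castSucc) ≤ _
      have := mass_le_total h.nonneg (c, j.castSucc)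
      linarith
  -- `W - ε S ≤ 8 S`
  have h4 : W - ε * total x ≤ 8 * total x := by
    by_contra hcon
    push Not at hcon
    have h5 : NN m * (8 * total x) < NN m * (W - ε * total x) :=
      mul_lt_mul_of_pos_left hcon hN
    nlinarith
  nlinarith

end Pool.Agent.LH
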