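import Mathlib

/-!
# Counting oscillations
-/

namespace Pool.Agent.LH

open Set

/-- `τ 0 < τ 1 < ... < τ K` are points of `[ta, tb]` at which `G` has alternating signs. -/
structure Alt (ta tb : ℝ) (G : ℝ → ℝ) (K : ℕ) (τ : ℕ → ℝ) : Prop where
  lt : ∀ j < K, τ j < τ (j + 1)
  mem : ∀ j ≤ K, τ j ∈ Icc ta tb
  alt : ∀ j < K, G (τ j) * G (τ (j + 1)) < 0

theorem exists_zero {G : ℝ → ℝ} (hG : Continuous G) {a b : ℝ} (hab : a < b) (h : G a * G b < 0) :
    ∃ c ∈ Ioo a b, G c = 0 := by
  rcases mul_neg_iff.1 h with ⟨h1, h2⟩ | ⟨h1, h2⟩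
  · obtain ⟨c, hc, hc'⟩ := intermediate_value_Ioo' hab.le hG.continuousOn ⟨h2, h1⟩
    exact ⟨c, hc, hc'⟩
  · obtain ⟨c, hc, hc'⟩ := intermediate_value_Ioo hab.le hG.continuousOn ⟨h1, h2⟩
    exact ⟨c, hc, hc'⟩

/-- A function that is affine on each of the `L` pieces alternates at most `L` times. -/
theorem alt_le_pieces {G : ℝ → ℝ} (hG : Continuous G) {L : ℕ}
    (haff : ∀ s < L, ∃ α β : ℝ, ∀ t ∈ Icc (s : ℝ) (s + 1), G t = α + β * t)
    {ta : ℝ} (hta : 0 ≤ ta) {K : ℕ} {τ : ℕ → ℝ} (h : Alt ta L G K τ) : K ≤ L := by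
  have hz : ∀ j : ℕ, ∃ c, j < K → c ∈ Ioo (τ j) (τ (j + 1)) ∧ G c = 0 := by
    intro j
    by_cases hj : j < K
    · obtain ⟨c, hc, hc'⟩ := exists_zero hG (h.lt j hj) (h.alt j hj)
      exact ⟨c, fun _ => ⟨hc, hc'⟩⟩
    · exact ⟨0, fun h => absurd h hj⟩
  choose ζ hζ using hz
  have hpos : ∀ j < K, 0 ≤ ζ j := by
    intro j hj
    exact hta.trans ((h.mem j hj.le).1.trans (hζ j hj).1.1.le)
  have hltL : ∀ j < K, ζ j < L := by
    intro j hj
    exact lt_of_lt_of_le (hζ j hj).1.2 (h.mem (j + 1) hj).2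
  have hfl : ∀ j < K, ⌊ζ j⌋₊ < L := by
    intro j hj
    exact (Nat.floor_lt (hpos j hj)).2 (hltL j hj)
  have key : ∀ j < K, j ≤ ⌊ζ j⌋₊ := by
    intro j
    induction j with
    | zero => intro _; exact Nat.zero_le _
    | succ j ih =>
      intro hj
      have hj' : j < K := by omega
      have h1 := ih hj'
      have h2 : ζ j < ζ (j + 1) := (hζ j hj').1.2.trans (hζ (j + 1) hj).1.1
      have h3 : ⌊ζ j⌋₊ ≤ ⌊ζ (j + 1)⌋₊ := Nat.floor_mono h2.le
      rcases Nat.lt_or_eq_of_le h3 with h4 | h4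
      · omega
      · exfalso
        obtain ⟨α, β, hαβ⟩ := haff _ (hfl j hj')
        have m1 : ζ j ∈ Icc ((⌊ζ j⌋₊ : ℕ) : ℝ) ((⌊ζ j⌋₊ : ℕ) + 1) :=
          ⟨Nat.floor_le (hpos j hj'), (Nat.lt_floor_add_one _).le⟩
        have m2 : ζ (j + 1) ∈ Icc ((⌊ζ j⌋₊ : ℕ) : ℝ) ((⌊ζ j⌋₊ : ℕ) + 1) := by
          rw [h4]
          exact ⟨Nat.floor_le (hpos _ hj), (Nat.lt_floor_add_one _).le⟩
        have e1 := hαβ _ m1
        have e2 := hαβ _ m2
        rw [(hζ j hj').2] at e1
        rw [(hζ (j + 1) hj).2] at e2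
        have hβ : β = 0 := by
          have : β * (ζ (j + 1) - ζ j) = 0 := by linarith
          rcases mul_eq_zero.1 this with h5 | h5
          · exact h5
          · linarith
        have hα : α = 0 := by rw [hβ] at e1; linarith
        have m3 : τ (j + 1) ∈ Icc ((⌊ζ j⌋₊ : ℕ) : ℝ) ((⌊ζ j⌋₊ : ℕ) + 1) :=
          ⟨m1.1.trans (hζ j hj').1.2.le, (hζ (j + 1) hj).1.1.le.trans m2.2⟩
        have e3 := hαβ _ m3
        rw [hα, hβ] at e3
        have h6 := h.alt j hj'
        rw [e3] at h6
        simp at h6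
  by_contra hcon
  push Not at hcon
  have h1 := key L hcon
  have h2 := hfl L hcon
  omega

/-- The zigzag: each stage doubles the number of alternations. -/
theorem zigzag {m : ℕ} (F X : Fin (m + 1) → ℝ → ℝ) (hF : ∀ i, Continuous (F i))
    (hX : ∀ i, Continuous (X i)) {ta tb : ℝ} (hab : ta ≤ tb)
    (hpos : ∀ i, ∀ t ∈ Icc ta tb, 0 < X i t)
    (h0 : ∀ (j : Fin m), ∀ t ∈ Icc ta tb, F j.castSucc t = 0 → F j.succ t = 0)
    (h1 : ∀ (j : Fin m), ∀ t ∈ Icc ta tb, F j.castSucc t = X j.castSucc t → F j.succ t = 0)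
    (h2 : ∀ (j : Fin m), ∀ t ∈ Icc ta tb, F j.castSucc t = X j.castSucc t / 2 →
      F j.succ t = X j.succ t)
    (hta : F 0 ta = X 0 ta) (htb : F 0 tb = 0) (i : Fin (m + 1)) :
    ∃ τ, Alt ta tb (fun t => F i t - X i t / 2) (2 ^ (i : ℕ)) τ ∧
      ∀ j ≤ 2 ^ (i : ℕ), F i (τ j) = 0 ∨ F i (τ j) = X i (τ j) := by
  induction i using Fin.induction with
  | zero =>
    have hlt : ta < tb := by
      rcases lt_or_eq_of_le hab with h | h
      · exact h
      · exfalso
        have h3 := hpos 0 ta ⟨le_rfl, hab⟩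
        rw [← h, hta] at htb
        linarith
    refine ⟨fun j => if j = 0 then ta else tb, ⟨?_, ?_, ?_⟩, ?_⟩
    · intro j hj
      simp only [Fin.val_zero, pow_zero, Nat.lt_one_iff] at hj
      subst hj
      simpa using hlt
    · intro j hj
      simp only [Fin.val_zero, pow_zero] at hj
      interval_cases j
      · simp [hab]
      · simp [hab]
    · intro j hj
      simp only [Fin.val_zero, pow_zero, Nat.lt_one_iff] at hj
      subst hj
      have h3 := hpos 0 ta ⟨le_rfl, hab⟩
      have h4 := hpos 0 tb ⟨hab, le_rfl⟩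
      simp only [if_true, zero_add, one_ne_zero, if_false, hta, htb]
      nlinarith
    · intro j hj
      simp only [Fin.val_zero, pow_zero] at hj
      interval_cases j
      · right; simpa using hta
      · left; simpa using htb
  | succ i ih =>
    obtain ⟨τ, hτ, hv⟩ := ih
    have hc : Continuous (fun t => F i.castSucc t - X i.castSucc t / 2) :=
      (hF _).sub ((hX _).div_const 2)
    have hz : ∀ j : ℕ, ∃ c, j < 2 ^ (i : ℕ) → c ∈ Ioo (τ j) (τ (j + 1)) ∧
        F i.castSucc c - X i.castSucc c / 2 = 0 := by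
      intro j
      by_cases hj : j < 2 ^ (i : ℕ)
      · obtain ⟨c, hc1, hc2⟩ := exists_zero hc (hτ.lt j (by simpa using hj))
          (hτ.alt j (by simpa using hj))
        exact ⟨c, fun _ => ⟨hc1, hc2⟩⟩
      · exact ⟨0, fun h => absurd h hj⟩
    choose μ hμ using hz
    have hK : (2 : ℕ) ^ ((i.succ : Fin (m + 1)) : ℕ) = 2 * 2 ^ (i : ℕ) := by
      rw [Fin.val_succ, pow_succ, mul_comm]
    have hlt := hτ.lt
    have hmem := hτ.mem
    simp only [Fin.val_castSucc] at hlt hmem hv
    have hμmem : ∀ j < 2 ^ (i : ℕ), μ j ∈ Icc ta tb := by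
      intro j hj
      exact ⟨(hmem j hj.le).1.trans (hμ j hj).1.1.le, (hμ j hj).1.2.le.trans (hmem (j + 1) hj).2⟩
    have hon : ∀ j < 2 ^ (i : ℕ), F i.succ (μ j) = X i.succ (μ j) := by
      intro j hj
      exact h2 i _ (hμmem j hj) (by linarith [(hμ j hj).2])
    have hoff : ∀ j ≤ 2 ^ (i : ℕ), F i.succ (τ j) = 0 := by
      intro j hj
      rcases hv j hj with h3 | h3
      · exact h0 i _ (hmem j hj) h3
      · exact h1 i _ (hmem j hj) h3
    refine ⟨fun l => if l % 2 = 0 then τ (l / 2) else μ (l / 2), ⟨?_, ?_, ?_⟩, ?_⟩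
    · intro l hl
      rw [hK] at hl
      rcases Nat.even_or_odd' l with ⟨c, rfl | rfl⟩
      · have e1 : 2 * c % 2 = 0 := by omega
        have e2 : 2 * c / 2 = c := by omega
        have e3 : (2 * c + 1) % 2 = 1 := by omega
        have e4 : (2 * c + 1) / 2 = c := by omega
        simp only [e1, e2, e3, e4, if_true, one_ne_zero, if_false]
        exact (hμ c (by omega)).1.1
      · have e1 : (2 * c + 1) % 2 = 1 := by omega
        have e2 : (2 * c + 1) / 2 = c := by omega
        have e3 : (2 * c + 1 + 1) % 2 = 0 := by omega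
        have e4 : (2 * c + 1 + 1) / 2 = c + 1 := by omega
        simp only [e1, e2, e3, e4, if_true, one_ne_zero, if_false]
        exact (hμ c (by omega)).1.2
    · intro l hl
      rw [hK] at hl
      rcases Nat.even_or_odd' l with ⟨c, rfl | rfl⟩
      · have e1 : 2 * c % 2 = 0 := by omega
        have e2 : 2 * c / 2 = c := by omega
        simp only [e1, e2, if_true]
        exact hmem c (by omega)
      · have e1 : (2 * c + 1) % 2 = 1 := by omega
        have e2 : (2 * c + 1) / 2 = c := by omega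
        simp only [e1, e2, one_ne_zero, if_false]
        exact hμmem c (by omega)
    · intro l hl
      rw [hK] at hl
      rcases Nat.even_or_odd' l with ⟨c, rfl | rfl⟩
      · have e1 : 2 * c % 2 = 0 := by omega
        have e2 : 2 * c / 2 = c := by omega
        have e3 : (2 * c + 1) % 2 = 1 := by omega
        have e4 : (2 * c + 1) / 2 = c := by omega
        simp only [e1, e2, e3, e4, if_true, one_ne_zero, if_false]
        rw [hoff c (by omega), hon c (by omega)]
        have p1 := hpos i.succ _ (hmem c (by omega))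
        have p2 := hpos i.succ _ (hμmem c (by omega))
        nlinarith
      · have e1 : (2 * c + 1) % 2 = 1 := by omega
        have e2 : (2 * c + 1) / 2 = c := by omega
        have e3 : (2 * c + 1 + 1) % 2 = 0 := by omega
        have e4 : (2 * c + 1 + 1) / 2 = c + 1 := by omega
        simp only [e1, e2, e3, e4, if_true, one_ne_zero, if_false]
        rw [hoff (c + 1) (by omega), hon c (by omega)]
        have p1 := hpos i.succ _ (hmem (c + 1) (by omega))
        have p2 := hpos i.succ _ (hμmem c (by omega))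
        nlinarith
    · intro l hl
      rw [hK] at hl
      rcases Nat.even_or_odd' l with ⟨c, rfl | rfl⟩
      · have e1 : 2 * c % 2 = 0 := by omega
        have e2 : 2 * c / 2 = c := by omega
        simp only [e1, e2, if_true]
        exact Or.inl (hoff c (by omega))
      · have e1 : (2 * c + 1) % 2 = 1 := by omega
        have e2 : (2 * c + 1) / 2 = c := by omega
        simp only [e1, e2, one_ne_zero, if_false]
        exact Or.inr (hon c (by omega))

/-- The polygonal path through the points `x 0, ..., x L`. -/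
noncomputable def polygon {ι : Type*} (x : ℕ → ι → ℝ) (L : ℕ) (t : ℝ) (p : ι) : ℝ :=
  x 0 p + ∑ s ∈ Finset.range L, max 0 (min 1 (t - s)) * (x (s + 1) p - x s p)

theorem continuous_polygon {ι : Type*} (x : ℕ → ι → ℝ) (L : ℕ) (p : ι) :
    Continuous (fun t => polygon x L t p) := by
  unfold polygon
  fun_prop

theorem polygon_seg {ι : Type*} (x : ℕ → ι → ℝ) (L : ℕ) {j : ℕ} (hj : j < L) {u : ℝ}
    (hu : u ∈ Icc (0 : ℝ) 1) (p : ι) :
    polygon x L (j + u) p = x j p + u * (x (j + 1) p - x j p) := by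
  unfold polygon
  obtain ⟨r, hr⟩ := Nat.exists_eq_add_of_le (Nat.succ_le_of_lt hj)
  have h1 : ∑ s ∈ Finset.range L, max 0 (min 1 ((j : ℝ) + u - s)) * (x (s + 1) p - x s p) =
      ∑ s ∈ Finset.range (j + 1), max 0 (min 1 ((j : ℝ) + u - s)) * (x (s + 1) p - x s p) := by
    symm
    apply Finset.sum_subset
    · intro s hs
      rw [Finset.mem_range] at hs ⊢
      omega
    · intro s hs hs'
      rw [Finset.mem_range] at hs hs'
      have h2 : (j : ℝ) + 1 ≤ s := by exact_mod_cast (by omega : j + 1 ≤ s)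
      rw [max_eq_left, zero_mul]
      exact (min_le_right _ _).trans (by linarith [hu.2])
  rw [h1, Finset.sum_range_succ]
  have h2 : ∑ s ∈ Finset.range j, max 0 (min 1 ((j : ℝ) + u - s)) * (x (s + 1) p - x s p) =
      ∑ s ∈ Finset.range j, (x (s + 1) p - x s p) := by
    refine Finset.sum_congr rfl (fun s hs => ?_)
    rw [Finset.mem_range] at hs
    have h3 : (s : ℝ) + 1 ≤ j := by exact_mod_cast hs
    rw [min_eq_left (by linarith [hu.1]), max_eq_right (by norm_num), one_mul]
  rw [h2, Finset.sum_range_sub (fun s => x s p)]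
  have h4 : max 0 (min 1 ((j : ℝ) + u - j)) = u := by
    rw [add_sub_cancel_left, min_eq_right hu.2, max_eq_right hu.1]
  rw [h4]
  ring

end Pool.Agent.LH
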