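import Pool.Agent.Lib.MP_159703_lc.Run
import Pool.Agent.Lib.MP_159703_lc.Game
import Pool.Agent.Lib.MP_159703_lc.Zigzag

/-!
# The lower bound for paths
-/

namespace Pool.Agent.LH

open Finset

variable {m : ℕ}

/-- The payoff matrix of the column player: entry `q p`. -/
noncomputable def colPay (q p : Strat m) : ℝ := (pay (Pi.single q 1) p + 34) / 36

theorem colPay_mem (hm : 1 ≤ m) (q p : Strat m) : colPay q p ∈ Set.Icc (0 : ℝ) 1 := by
  have h0 : ∀ p', 0 ≤ (Pi.single q (1 : ℝ) : Strat m → ℝ) p' := by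
    intro p'
    by_cases h : p' = q
    · subst h; simp
    · rw [Pi.single_eq_of_ne h]
  have h1 := pay_bounds h0 hm p
  have h2 : total (Pi.single q (1 : ℝ) : Strat m → ℝ) = 1 := by
    unfold total
    simp
  rw [h2] at h1
  unfold colPay
  constructor
  · apply div_nonneg _ (by norm_num)
    linarith [h1.1]
  · rw [div_le_one (by norm_num)]
    linarith [h1.2]

theorem colPay_sum (x : Strat m → ℝ) (p : Strat m) :
    ∑ q, x q * colPay q p = (pay x p + 34 * total x) / 36 := by
  unfold colPay total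
  rw [pay_linear x p, Finset.mul_sum, ← Finset.sum_add_distrib, Finset.sum_div]
  exact Finset.sum_congr rfl (fun q _ => by ring)

theorem approx_of_resp {B : Strat m → Strat m → ℝ} {δ : ℝ}
    (hB : ∀ q p, |B q p - colPay q p| ≤ δ) {T : Finset (Block m)} {x : Strat m → ℝ}
    (hx : ∀ p, 0 ≤ x p) (hpos : 0 < total x) {V : ℝ} (hle : ∀ p, ∑ q, x q * B q p ≤ V)
    (heq : ∀ p : Strat m, p.1 ∈ T → 0 < x p → ∑ q, x q * B q p = V) :
    Approx (36 * δ) (-(36 * V - 34 * total x)) T x := by
  have hest : ∀ p, |∑ q, x q * B q p - (pay x p + 34 * total x) / 36| ≤ δ * total x := by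
    intro p
    rw [← colPay_sum, ← Finset.sum_sub_distrib]
    refine (Finset.abs_sum_le_sum_abs _ _).trans ?_
    unfold total
    rw [Finset.mul_sum]
    refine Finset.sum_le_sum (fun q _ => ?_)
    rw [← mul_sub, abs_mul, abs_of_nonneg (hx q), mul_comm]
    exact mul_le_mul_of_nonneg_right (hB q p) (hx q)
  refine ⟨hx, hpos, fun p => ?_, fun p hp hxp => ?_⟩
  · have h1 := abs_le.1 (hest p)
    have h2 := hle p
    linarith [h1.1]
  · have h1 := abs_le.1 (hest p)
    have h2 := heq p hp hxp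
    linarith [h1.2]

theorem sum_erase_mass (x : Strat m → ℝ) (b0 : Block m) :
    ∑ b ∈ univ.erase b0, mass x b = total x - mass x b0 := by
  have h1 := Finset.add_sum_erase univ (mass x) (Finset.mem_univ b0)
  rw [← total_eq] at h1
  linarith

theorem continuous_mass {γ : ℝ → Strat m → ℝ} (hγ : ∀ p, Continuous (fun t => γ t p))
    (b : Block m) : Continuous (fun t => mass (γ t) b) := by
  unfold mass
  exact continuous_finsetSum _ (fun a _ => hγ (b, a))

theorem continuous_total {γ : ℝ → Strat m → ℝ} (hγ : ∀ p, Continuous (fun t => γ t p)) :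
    Continuous (fun t => total (γ t)) := by
  unfold total
  exact continuous_finsetSum _ (fun p _ => hγ p)

/-- The main lower bound. -/
theorem path_bound (hm : 1 ≤ m) {B : Strat m → Strat m → ℝ} {c δ : ℝ}
    (hB : ∀ q p, |B q p - colPay q p| ≤ δ) (hδ : 32 * (36 * δ) * NN m ≤ 1) (p0 : Strat m)
    (x : ℕ → Strat m → ℝ) (L : ℕ) (h0 : x 0 = 0)
    (hpath : ∀ j < L, ∀ t ∈ Set.Icc (0 : ℝ) 1,
      PathPt B c p0 (fun p => x j p + t * (x (j + 1) p - x j p)))
    (hpos : 0 < total (x L)) (hend : ∃ V, (∀ j, ∑ i, x L i * B i j ≤ V) ∧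
      ∀ p, 0 < x L p → ∑ i, x L i * B i p = V) : 2 ^ m ≤ L := by
  classical
  have hδ0 : 0 ≤ δ := (abs_nonneg _).trans (hB p0 p0)
  have hL : 0 < L := by
    rcases Nat.eq_zero_or_pos L with h | h
    · exfalso
      rw [h, h0] at hpos
      simp [total] at hpos
    · exact h
  -- the path
  set γ : ℝ → Strat m → ℝ := fun t => polygon x L t with hγdef
  have hγ : ∀ p, Continuous (fun t => γ t p) := fun p => continuous_polygon x L p
  have hseg : ∀ j < L, ∀ u ∈ Set.Icc (0 : ℝ) 1, γ ((j : ℝ) + u) =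
      fun p => x j p + u * (x (j + 1) p - x j p) := by
    intro j hj u hu
    ext p
    exact polygon_seg x L hj hu p
  have hpt : ∀ t ∈ Set.Icc (0 : ℝ) L, PathPt B c p0 (γ t) := by
    intro t ht
    by_cases hlt : t < L
    · have h1 : ⌊t⌋₊ < L := (Nat.floor_lt ht.1).2 hlt
      have h2 : t - (⌊t⌋₊ : ℝ) ∈ Set.Icc (0 : ℝ) 1 :=
        ⟨sub_nonneg.2 (Nat.floor_le ht.1), by linarith [Nat.lt_floor_add_one t]⟩
      have h3 := hseg _ h1 _ h2
      rw [add_sub_cancel] at h3
      rw [h3]
      exact hpath _ h1 _ h2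
    · have h1 : t = ((L - 1 : ℕ) : ℝ) + 1 := by
        have : ((L - 1 : ℕ) : ℝ) + 1 = L := by
          exact_mod_cast (by omega : L - 1 + 1 = L)
        rw [this]
        exact le_antisymm ht.2 (not_lt.1 hlt)
      rw [h1, hseg (L - 1) (by omega) 1 ⟨by norm_num, le_rfl⟩]
      exact hpath _ (by omega) _ ⟨by norm_num, le_rfl⟩
  have hγ0 : γ 0 = 0 := by
    have h1 := hseg 0 hL 0 ⟨le_rfl, by norm_num⟩
    simp only [Nat.cast_zero, add_zero, zero_mul] at h1
    rw [h1]
    exact h0
  have hγL : γ L = x L := by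
    have h1 := hseg (L - 1) (by omega) 1 ⟨by norm_num, le_rfl⟩
    have h2 : ((L - 1 : ℕ) : ℝ) + 1 = L := by
      exact_mod_cast (by omega : L - 1 + 1 = L)
    have h3 : L - 1 + 1 = L := by omega
    rw [h2, h3] at h1
    rw [h1]
    ext p
    ring
  -- the end point
  have hLmem : (L : ℝ) ∈ Set.Icc (0 : ℝ) L := ⟨Nat.cast_nonneg _, le_rfl⟩
  obtain ⟨VL, hVL1, hVL2⟩ := hend
  have hAL : Approx (36 * δ) (-(36 * VL - 34 * total (x L))) univ (x L) := by
    refine approx_of_resp hB (fun p => ?_) hpos hVL1 (fun p _ hp => hVL2 p hp)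
    have := (hpt L hLmem).nonneg p
    rwa [hγL] at this
  have hε0 : 0 ≤ 36 * δ := by linarith
  have hendlt : ∀ b, 2 * mass (γ L) b < total (γ L) := by
    intro b
    rw [hγL]
    exact hAL.lt_half hm hδ hε0 b
  -- the window
  set f : ℝ → ℝ := fun t => 2 * mass (γ t) p0.1 - total (γ t) with hf
  have hfc : Continuous f :=
    ((continuous_mass hγ p0.1).const_mul 2 |>.congr (fun t => by ring)).sub (continuous_total hγ)
  set Z : Set ℝ := {t | t ∈ Set.Icc (0 : ℝ) L ∧ 0 ≤ f t} with hZ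
  have hZc : IsClosed Z := by
    have : Z = Set.Icc (0 : ℝ) L ∩ f ⁻¹' Set.Ici 0 := rfl
    rw [this]
    exact isClosed_Icc.inter (isClosed_Ici.preimage hfc)
  have hZ0 : (0 : ℝ) ∈ Z := by
    refine ⟨⟨le_rfl, Nat.cast_nonneg _⟩, ?_⟩
    simp [hf, hγ0, mass, total]
  have hZb : BddAbove Z := ⟨L, fun t ht => ht.1.2⟩
  set ta := sSup Z with hta
  have htaZ : ta ∈ Z := hZc.csSup_mem ⟨0, hZ0⟩ hZb
  have hafter : ∀ t ∈ Set.Icc (0 : ℝ) L, ta < t → f t < 0 := by
    intro t ht hlt
    by_contra hge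
    push Not at hge
    exact absurd (le_csSup hZb ⟨ht, hge⟩) (not_le.2 hlt)
  have htaL : ta < L := by
    rcases lt_or_eq_of_le htaZ.1.2 with h | h
    · exact h
    · exfalso
      have h1 := htaZ.2
      rw [h] at h1
      have h2 := hendlt p0.1
      simp only [hf] at h1
      linarith
  have hfta : f ta = 0 := by
    refine le_antisymm ?_ htaZ.2
    by_contra hcon
    push Not at hcon
    have h1 : ∀ᶠ t in nhds ta, 0 < f t := hfc.continuousAt.eventually (lt_mem_nhds hcon)
    have h2 : ∀ᶠ t in nhdsWithin ta (Set.Ioi ta), 0 < f t ∧ t ∈ Set.Ioo ta L :=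
      (h1.filter_mono nhdsWithin_le_nhds).and (Ioo_mem_nhdsGT htaL)
    obtain ⟨t, ht1, ht2⟩ := h2.exists
    have h3 := hafter t ⟨htaZ.1.1.trans ht2.1.le, ht2.2.le⟩ ht2.1
    linarith
  -- total mass positive at `ta`
  have htot : 0 < total (γ ta) := by
    have hnn : 0 ≤ total (γ ta) :=
      Finset.sum_nonneg (fun p _ => (hpt ta htaZ.1).nonneg p)
    rcases lt_or_eq_of_le hnn with h | h
    · exact h
    exfalso
    -- a bound for the payoffs
    obtain ⟨K, hK0, hK⟩ : ∃ K : ℝ, 0 < K ∧ ∀ q p, |B q p + c| ≤ K := by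
      refine ⟨∑ q, ∑ p, |B q p + c| + 1, ?_, fun q p => ?_⟩
      · have : 0 ≤ ∑ q, ∑ p, |B q p + c| :=
          Finset.sum_nonneg (fun _ _ => Finset.sum_nonneg (fun _ _ => abs_nonneg _))
        linarith
      · have h1 : |B q p + c| ≤ ∑ p, |B q p + c| :=
          Finset.single_le_sum (f := fun p => |B q p + c|) (fun _ _ => abs_nonneg _)
            (Finset.mem_univ p)
        have h2 : ∑ p, |B q p + c| ≤ ∑ q, ∑ p, |B q p + c| :=
          Finset.single_le_sum (f := fun q => ∑ p, |B q p + c|)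
            (fun _ _ => Finset.sum_nonneg (fun _ _ => abs_nonneg _)) (Finset.mem_univ q)
        linarith
    have hc1 : ContinuousAt (fun t => K * total (γ t)) ta :=
      (continuous_total hγ).continuousAt.const_mul K |>.congr
        (Filter.Eventually.of_forall (fun t => rfl))
    have h1 : ∀ᶠ t in nhds ta, K * total (γ t) < 1 := by
      apply hc1.eventually (gt_mem_nhds _)
      change K * total (γ ta) < 1
      rw [← h]
      simp
    have h2 : ∀ᶠ t in nhdsWithin ta (Set.Ioi ta), K * total (γ t) < 1 ∧ t ∈ Set.Ioo ta L :=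
      (h1.filter_mono nhdsWithin_le_nhds).and (Ioo_mem_nhdsGT htaL)
    obtain ⟨t, ht1, ht2⟩ := h2.exists
    have htm : t ∈ Set.Icc (0 : ℝ) L := ⟨htaZ.1.1.trans ht2.1.le, ht2.2.le⟩
    have h3 := hafter t htm ht2.1
    have h4 := hpt t htm
    have h5 : ∀ p, p ≠ p0 → γ t p = 0 := by
      intro p hp
      by_contra hne
      have h6 := h4.eq p hp (lt_of_le_of_ne (h4.nonneg p) (Ne.symm hne))
      have h7 : ∑ i, γ t i * (B i p + c) ≤ K * total (γ t) := by
        unfold total
        rw [Finset.mul_sum]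
        refine Finset.sum_le_sum (fun i _ => ?_)
        rw [mul_comm]
        exact mul_le_mul_of_nonneg_right ((le_abs_self _).trans (hK i p)) (h4.nonneg i)
      linarith
    have h8 : total (γ t) = γ t p0 := by
      unfold total
      exact Finset.sum_eq_single p0 (fun p _ hp => h5 p hp)
        (fun h => absurd (Finset.mem_univ _) h)
    have h9 : γ t p0 ≤ mass (γ t) p0.1 := le_mass h4.nonneg p0.1 p0.2
    have h10 := h4.nonneg p0
    simp only [hf] at h3
    linarith
  -- the window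
  have hwin : ∀ t ∈ Set.Icc ta L, 0 < total (γ t) ∧ 2 * mass (γ t) p0.1 ≤ total (γ t) := by
    intro t ht
    rcases lt_or_eq_of_le ht.1 with h | h
    · have h1 := hafter t ⟨htaZ.1.1.trans ht.1, ht.2⟩ h
      have h2 := mass_nonneg (hpt t ⟨htaZ.1.1.trans ht.1, ht.2⟩).nonneg p0.1
      simp only [hf] at h1
      exact ⟨by linarith, by linarith⟩
    · rw [← h]
      simp only [hf] at hfta
      exact ⟨htot, by linarith⟩
  have happrox : ∀ t ∈ Set.Icc ta L, ∃ W, Approx (36 * δ) W (univ.erase p0.1) (γ t) ∧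
      total (γ t) ≤ 2 * ∑ b ∈ univ.erase p0.1, mass (γ t) b := by
    intro t ht
    have htm : t ∈ Set.Icc (0 : ℝ) L := ⟨htaZ.1.1.trans ht.1, ht.2⟩
    have h1 := hpt t htm
    obtain ⟨h2, h3⟩ := hwin t ht
    have hs : ∀ p, ∑ q, γ t q * (B q p + c) = ∑ q, γ t q * B q p + c * total (γ t) := by
      intro p
      unfold total
      rw [Finset.mul_sum, ← Finset.sum_add_distrib]
      exact Finset.sum_congr rfl (fun q _ => by ring)
    refine ⟨_, approx_of_resp hB h1.nonneg h2 (V := 1 - c * total (γ t)) (fun p => ?_)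
      (fun p hp hxp => ?_), ?_⟩
    · have h4 := h1.le p
      rw [hs] at h4
      linarith
    · have hne : p ≠ p0 := by
        rintro rfl
        exact (Finset.mem_erase.1 hp).1 rfl
      have h4 := h1.eq p hne hxp
      rw [hs] at h4
      linarith
    · rw [sum_erase_mass]
      linarith
  -- the other chain
  set ch : Bool := !p0.1.1 with hch
  have hgood : ∀ i : Fin (m + 1), (ch, i) ∈ univ.erase p0.1 := by
    intro i
    rw [Finset.mem_erase]
    refine ⟨fun h => ?_, Finset.mem_univ _⟩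
    have : ch = p0.1.1 := by rw [← h]
    rw [hch] at this
    cases h' : p0.1.1 <;> simp [h'] at this
  have hposm : ∀ (i : Fin (m + 1)), ∀ t ∈ Set.Icc ta L, 0 < mass (γ t) (ch, i) := by
    intro i t ht
    obtain ⟨W, hW, hT⟩ := happrox t ht
    have h1 := hW.small hm hδ hT (ch, i)
    have h2 : 0 ≤ 36 * δ * total (γ t) := mul_nonneg hε0 hW.pos.le
    linarith
  have hzz := zigzag (m := m) (fun i t => γ t ((ch, i), 1)) (fun i t => mass (γ t) (ch, i))
    (fun i => hγ _) (fun i => continuous_mass hγ _) htaL.le hposm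
    (fun j t ht h => by
      obtain ⟨W, hW, hT⟩ := happrox t ht
      exact hW.next_of_zero hm hδ hT (hgood _) h)
    (fun j t ht h => by
      obtain ⟨W, hW, hT⟩ := happrox t ht
      exact hW.next_of_one hm hδ hT (hgood _) h)
    (fun j t ht h => by
      obtain ⟨W, hW, hT⟩ := happrox t ht
      exact hW.next_of_half hm hδ hT (hgood _) h)
    (by
      obtain ⟨W, hW, hT⟩ := happrox ta ⟨le_rfl, htaL.le⟩
      simp only [hf] at hfta
      exact hW.first_on hm hδ rfl (by linarith) (hgood 0))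
    (by
      change γ L ((ch, 0), 1) = 0
      rw [hγL]
      exact hAL.first_off hm hδ ch)
    (Fin.last m)
  obtain ⟨τ, hτ, _⟩ := hzz
  rw [Fin.val_last] at hτ
  refine alt_le_pieces ((hγ _).sub ((continuous_mass hγ _).div_const 2)) ?_ htaZ.1.1 hτ
  intro s hs
  refine ⟨(x s ((ch, Fin.last m), 1) - mass (x s) (ch, Fin.last m) / 2) -
      s * ((x (s + 1) ((ch, Fin.last m), 1) - x s ((ch, Fin.last m), 1)) -
        (mass (x (s + 1)) (ch, Fin.last m) - mass (x s) (ch, Fin.last m)) / 2),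
    (x (s + 1) ((ch, Fin.last m), 1) - x s ((ch, Fin.last m), 1)) -
        (mass (x (s + 1)) (ch, Fin.last m) - mass (x s) (ch, Fin.last m)) / 2, ?_⟩
  intro t ht
  have h1 := hseg s hs (t - s) ⟨by linarith [ht.1], by linarith [ht.2]⟩
  rw [add_sub_cancel] at h1
  change γ t ((ch, Fin.last m), 1) - mass (γ t) (ch, Fin.last m) / 2 = _
  rw [h1]
  have h2 : mass (fun p => x s p + (t - s) * (x (s + 1) p - x s p)) (ch, Fin.last m) =
      mass (x s) (ch, Fin.last m) + (t - s) * (mass (x (s + 1)) (ch, Fin.last m) -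
        mass (x s) (ch, Fin.last m)) := by
    unfold mass
    rw [Finset.sum_add_distrib, ← Finset.mul_sum, Finset.sum_sub_distrib]
  rw [h2]
  ring

end Pool.Agent.LH
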