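import Pool.Agent.Lib.MP_159703_lc.PathBound

/-!
# The robust exponential lower bound for the Lemke-Howson algorithm
-/

namespace Pool.Agent.LH

open Finset

/-- The size of the hard game. -/
def size (m : ℕ) : ℕ := 6 * (m + 1)

theorem card_strat (m : ℕ) : Fintype.card (Strat m) = size m := by
  unfold size
  simp [Fintype.card_prod]
  ring

/-- An enumeration of the strategies. -/
noncomputable def enum (m : ℕ) : Strat m ≃ Fin (size m) :=
  Fintype.equivFinOfCardEq (card_strat m)

/-- The payoff matrix of the row player. -/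
def hardA (m : ℕ) (i j : Fin (size m)) : ℝ := if i = j then 1 else 0

/-- The payoff matrix of the column player. -/
noncomputable def hardB (m : ℕ) (i j : Fin (size m)) : ℝ :=
  colPay ((enum m).symm i) ((enum m).symm j)

theorem hardA_mem (m : ℕ) (i j : Fin (size m)) : hardA m i j ∈ Set.Icc (0 : ℝ) 1 := by
  unfold hardA
  split_ifs <;> simp

theorem hardB_mem {m : ℕ} (hm : 1 ≤ m) (i j : Fin (size m)) : hardB m i j ∈ Set.Icc (0 : ℝ) 1 :=
  colPay_mem hm _ _

/-- The radius. -/
noncomputable def radius (m : ℕ) : ℝ := 1 / (2304 * ((m : ℝ) + 1))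

theorem radius_pos (m : ℕ) : 0 < radius m := by unfold radius; positivity

theorem size_cast (m : ℕ) : (size m : ℝ) = 6 * ((m : ℝ) + 1) := by
  unfold size; push_cast; ring

/-- For every game close to the hard game, every run of the Lemke-Howson algorithm that has found
a Nash equilibrium has made at least `2 ^ m` pivots. -/
theorem robust {m : ℕ} (hm : 1 ≤ m) {A B : Fin (size m) → Fin (size m) → ℝ}
    (hA : ∀ i j, |A i j - hardA m i j| ≤ radius m) (hB : ∀ i j, |B i j - hardB m i j| ≤ radius m)
    {k : Label (size m)} {s : ℕ} {a : ℕ → State (size m)} (hrun : IsRun A B k s a)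
    (hnash : IsNash A B (a s).x (a s).y) : 2 ^ m ≤ s := by
  have hmpos : (0 : ℝ) < (m : ℝ) + 1 := by positivity
  have hrad : radius m * (2304 * ((m : ℝ) + 1)) = 1 := by
    unfold radius
    field_simp
  have hδ : 2 * (size m : ℝ) * radius m < 1 := by
    rw [size_cast]
    nlinarith
  have hA' : ∀ i j, |A i j - if i = j then 1 else 0| ≤ radius m := hA
  set e := enum m with he
  refine path_bound hm (B := fun q p => B (e q) (e p)) (c := shift A B) (δ := radius m) ?_ ?_
    (e.symm k.index) (fun j p => (a j).P.value (Sum.inl (e p))) s ?_ ?_ ?_ ?_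
  · intro q p
    have h1 := hB (e q) (e p)
    unfold hardB at h1
    rw [← he, Equiv.symm_apply_apply, Equiv.symm_apply_apply] at h1
    exact h1
  · unfold NN
    nlinarith
  · ext p
    rw [hrun.1]
    change Tableau.value (init A B k).P (Sum.inl (e p)) = 0
    apply Tableau.value_eq_zero
    rintro ⟨r, hr⟩
    simp [init] at hr
  · intro j hj t ht
    have h1 := hrun.pathPt hA' hδ j hj t ht
    refine ⟨fun p => h1.nonneg (e p), fun p => ?_, fun p hp hxp => ?_⟩
    · have h2 := h1.le (e p)
      rw [← Equiv.sum_comp e] at h2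
      exact h2
    · have h2 := h1.eq (e p) (fun h => hp (by rw [← h, Equiv.symm_apply_apply])) hxp
      rw [← Equiv.sum_comp e] at h2
      exact h2
  · have hinv := hrun.inv s le_rfl
    have h1 := hnash.1.2
    have h2 : total (fun p => (a s).P.value (Sum.inl (e p))) =
        ∑ i, (a s).P.value (Sum.inl i) := by
      unfold total
      exact Equiv.sum_comp e (fun i => (a s).P.value (Sum.inl i))
    rw [h2]
    have h3 : 0 ≤ ∑ i, (a s).P.value (Sum.inl i) :=
      Finset.sum_nonneg (fun i _ => Tableau.value_nonneg hinv.goodP _)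
    rcases lt_or_eq_of_le h3 with h | h
    · exact h
    · exfalso
      unfold State.x at h1
      rw [← h] at h1
      simp at h1
  · have hinv := hrun.inv s le_rfl
    obtain ⟨V, hV1, hV2⟩ := nash_resp hA' hδ hnash
    have h1 := hnash.1.2
    have hS0 : 0 ≤ ∑ i, (a s).P.value (Sum.inl i) :=
      Finset.sum_nonneg (fun i _ => Tableau.value_nonneg hinv.goodP _)
    have hS : 0 < ∑ i, (a s).P.value (Sum.inl i) := by
      rcases lt_or_eq_of_le hS0 with h | h
      · exact h
      · exfalso
        unfold State.x at h1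
        rw [← h] at h1
        simp at h1
    set S := ∑ i, (a s).P.value (Sum.inl i) with hSdef
    have h2 : ∀ i, (a s).P.value (Sum.inl i) = S * (a s).x i := by
      intro i
      unfold State.x
      rw [← hSdef]
      field_simp
    have h3 : ∀ p, ∑ q, (a s).P.value (Sum.inl (e q)) * B (e q) (e p) =
        S * ∑ i, (a s).x i * B i (e p) := by
      intro p
      rw [Equiv.sum_comp e (fun i => (a s).P.value (Sum.inl i) * B i (e p)), Finset.mul_sum]
      exact Finset.sum_congr rfl (fun i _ => by rw [h2]; ring)
    refine ⟨S * V, fun p => ?_, fun p hp => ?_⟩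
    · rw [h3]
      exact mul_le_mul_of_nonneg_left (hV1 _) hS.le
    · rw [h3, hV2]
      change 0 < (a s).P.value (Sum.inl (e p)) at hp
      rw [h2] at hp
      exact (mul_pos_iff_of_pos_left hS).1 hp

/-- The number of pivots for the best initial label is at least `2 ^ m` near the hard game. -/
theorem two_pow_le_pivots {m : ℕ} (hm : 1 ≤ m) {A B : Fin (size m) → Fin (size m) → ℝ}
    (hA : ∀ i j, |A i j - hardA m i j| ≤ radius m) (hB : ∀ i j, |B i j - hardB m i j| ≤ radius m) :
    ((2 ^ m : ℕ) : ℕ∞) ≤ ⨅ k, pivots A B k := by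
  unfold pivots
  refine le_iInf (fun k => le_iInf (fun s => le_iInf (fun a => le_iInf (fun h1 =>
    le_iInf (fun h2 => ?_)))))
  exact_mod_cast robust hm hA hB h1 h2

end Pool.Agent.LH
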