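import Pool.Agent.Lib.MP_159703_lc.Defs

/-!
# Tableau invariants and the polygonal path of a run
-/

namespace Pool.Agent.LH

open Finset

variable {n : ℕ}

/-- The tableau `t` is reachable from `t0` by pivoting. -/
structure Tableau.Good (t0 t : Tableau n) : Prop where
  unit : ∀ r r', t.coef r (t.basic r') = if r = r' then 1 else 0
  nonneg : ∀ r, 0 ≤ t.rhs r
  sol : ∀ z : Label n → ℝ, (∀ r, ∑ l, t.coef r l * z l = t.rhs r) →
    ∀ r, ∑ l, t0.coef r l * z l = t0.rhs r

theorem Tableau.Good.injective {t0 t : Tableau n} (h : t0.Good t) : Function.Injective t.basic := by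
  intro r r' hrr
  have h1 := h.unit r r
  have h2 := h.unit r r'
  rw [← hrr, h1] at h2
  by_contra hne
  simp [hne] at h2

theorem Tableau.value_nonneg {t0 t : Tableau n} (h : t0.Good t) (l : Label n) : 0 ≤ t.value l := by
  unfold Tableau.value
  refine Finset.sum_nonneg (fun r _ => ?_)
  split_ifs
  · exact h.nonneg r
  · exact le_rfl

theorem Tableau.value_eq_zero (t : Tableau n) (l : Label n) (h : l ∉ Set.range t.basic) :
    t.value l = 0 := by
  unfold Tableau.value
  refine Finset.sum_eq_zero (fun r _ => ?_)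
  rw [if_neg]
  rintro rfl
  exact h ⟨r, rfl⟩

theorem Tableau.value_sol {t0 t : Tableau n} (h : t0.Good t) (r : Fin n) :
    ∑ l, t0.coef r l * t.value l = t0.rhs r := by
  refine h.sol t.value (fun r => ?_) r
  unfold Tableau.value
  simp_rw [Finset.mul_sum]
  rw [Finset.sum_comm]
  have h1 : ∀ r' ∈ (univ : Finset (Fin n)), ∑ l, t.coef r l * (if t.basic r' = l then t.rhs r' else 0)
      = if r = r' then t.rhs r else 0 := by
    intro r' _
    rw [Finset.sum_eq_single (t.basic r')]
    · rw [if_pos rfl, h.unit]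
      by_cases hrr : r = r'
      · subst hrr; simp
      · simp [hrr]
    · intro l _ hl
      rw [if_neg (fun h => hl h.symm), mul_zero]
    · intro h; exact absurd (Finset.mem_univ _) h
  rw [Finset.sum_congr rfl h1]
  simp

theorem Tableau.Good.pivot {t0 t : Tableau n} (h : t0.Good t) {e : Label n} {r : Fin n}
    (hr : t.IsPivotRow e r) : t0.Good (t.pivot e r) := by
  obtain ⟨hpos, hmin⟩ := hr
  refine ⟨?_, ?_, ?_⟩
  · intro r1 r2
    simp only [Tableau.pivot]
    by_cases h2 : r2 = r
    · rw [if_pos h2]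
      by_cases h1 : r1 = r
      · rw [if_pos h1, if_pos (h1.trans h2.symm)]
        exact div_self hpos.ne'
      · rw [if_neg h1, if_neg (fun h => h1 (h.trans h2)), div_self hpos.ne']
        ring
    · rw [if_neg h2]
      have hu := h.unit r r2
      rw [if_neg (fun h => h2 h.symm)] at hu
      rw [hu]
      by_cases h1 : r1 = r
      · rw [if_pos h1, if_neg (fun h => h2 (h.symm.trans h1))]
        simp
      · rw [if_neg h1, h.unit r1 r2]
        simp
  · intro r1
    simp only [Tableau.pivot]
    by_cases h1 : r1 = r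
    · rw [if_pos h1]
      exact div_nonneg (h.nonneg r) hpos.le
    · rw [if_neg h1, sub_nonneg]
      by_cases h2 : 0 < t.coef r1 e
      · have h3 := hmin r1 h2
        have h4 := mul_le_mul_of_nonneg_left h3 h2.le
        rwa [mul_div_cancel₀ _ h2.ne'] at h4
      · have h3 : t.coef r1 e * (t.rhs r / t.coef r e) ≤ 0 :=
          mul_nonpos_of_nonpos_of_nonneg (not_lt.1 h2) (div_nonneg (h.nonneg r) hpos.le)
        exact h3.trans (h.nonneg r1)
  · intro z hz
    apply h.sol z
    have hr1 : ∑ l, t.coef r l * z l = t.rhs r := by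
      have h1 := hz r
      simp only [Tableau.pivot] at h1
      have h2 : ∑ l, t.coef r l / t.coef r e * z l = (∑ l, t.coef r l * z l) / t.coef r e := by
        rw [Finset.sum_div]
        exact Finset.sum_congr rfl (fun l _ => by ring)
      rw [if_pos trivial] at h1
      have h3 : ∑ l, t.coef r l / t.coef r e * z l = t.rhs r / t.coef r e := by
        simpa using h1
      rw [h2] at h3
      exact (div_left_inj' hpos.ne').1 h3
    intro r'
    by_cases hr' : r' = r
    · rw [hr']; exact hr1
    · have h1 := hz r'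
      simp only [Tableau.pivot, if_neg hr'] at h1
      have h2 : ∑ l, (t.coef r' l - t.coef r' e * (t.coef r l / t.coef r e)) * z l =
          (∑ l, t.coef r' l * z l) - t.coef r' e / t.coef r e * (∑ l, t.coef r l * z l) := by
        rw [Finset.mul_sum, ← Finset.sum_sub_distrib]
        exact Finset.sum_congr rfl (fun l _ => by ring)
      rw [h2, hr1] at h1
      have h3 : t.coef r' e * (t.rhs r / t.coef r e) = t.coef r' e / t.coef r e * t.rhs r := by ring
      rw [h3] at h1
      linarith

/-- The invariants of the states of a run. -/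
structure Inv (A B : Fin n → Fin n → ℝ) (k : Label n) (a : State n) : Prop where
  goodP : (init A B k).P.Good a.P
  goodQ : (init A B k).Q.Good a.Q
  compl : ∀ l, l ≠ k → l ∉ Set.range a.P.basic ∨ l ∉ Set.range a.Q.basic
  enter : a.enter ≠ k → a.enter ∉ Set.range a.P.basic ∧ a.enter ∉ Set.range a.Q.basic

theorem inv_init (A B : Fin n → Fin n → ℝ) (k : Label n) : Inv A B k (init A B k) := by
  refine ⟨⟨?_, ?_, fun z hz => hz⟩, ⟨?_, ?_, fun z hz => hz⟩, ?_, ?_⟩
  · intro r r'
    simp [init, eq_comm]
  · intro r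
    simp [init]
  · intro r r'
    simp [init, eq_comm]
  · intro r
    simp [init]
  · intro l _
    rcases l with l | l
    · left
      rintro ⟨r, hr⟩
      simp [init] at hr
    · right
      rintro ⟨r, hr⟩
      simp [init] at hr
  · intro h
    exact absurd rfl h

theorem range_pivot {t : Tableau n} {e l : Label n} {r : Fin n}
    (h : l ∈ Set.range (t.pivot e r).basic) : l = e ∨ l ∈ Set.range t.basic := by
  obtain ⟨r', hr'⟩ := h
  simp only [Tableau.pivot] at hr'
  by_cases h1 : r' = r
  · rw [if_pos h1] at hr'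
    exact Or.inl hr'.symm
  · rw [if_neg h1] at hr'
    exact Or.inr ⟨r', hr'⟩

theorem basic_notMem_pivot {t0 t : Tableau n} (h : t0.Good t) {e : Label n} {r : Fin n}
    (he : t.basic r ≠ e) : t.basic r ∉ Set.range (t.pivot e r).basic := by
  rintro ⟨r', hr'⟩
  simp only [Tableau.pivot] at hr'
  by_cases h1 : r' = r
  · rw [if_pos h1] at hr'
    exact he hr'.symm
  · rw [if_neg h1] at hr'
    exact h1 (h.injective hr')

theorem Inv.step {A B : Fin n → Fin n → ℝ} {k : Label n} {a b : State n} (h : Inv A B k a)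
    (hs : a.Step b) : Inv A B k b := by
  rcases hs with ⟨_, r, hr, rfl⟩ | ⟨_, r, hr, rfl⟩
  · refine ⟨h.goodP.pivot hr, h.goodQ, ?_, ?_⟩
    · intro l hl
      by_cases hq : l ∈ Set.range a.Q.basic
      · left
        intro hp
        rcases range_pivot hp with h1 | h1
        · subst h1
          exact (h.enter hl).2 hq
        · exact (h.compl l hl).elim (fun h2 => h2 h1) (fun h2 => h2 hq)
      · exact Or.inr hq
    · intro hl
      change a.P.basic r ≠ k at hl
      change a.P.basic r ∉ Set.range (a.P.pivot a.enter r).basic ∧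
        a.P.basic r ∉ Set.range a.Q.basic
      have h3 : a.P.basic r ∉ Set.range a.Q.basic :=
        (h.compl _ hl).resolve_left (fun h2 => h2 ⟨r, rfl⟩)
      refine ⟨basic_notMem_pivot h.goodP (fun he => ?_), h3⟩
      have hk : a.enter ≠ k := he ▸ hl
      exact (h.enter hk).1 ⟨r, he⟩
  · refine ⟨h.goodP, h.goodQ.pivot hr, ?_, ?_⟩
    · intro l hl
      by_cases hq : l ∈ Set.range a.P.basic
      · right
        intro hp
        rcases range_pivot hp with h1 | h1
        · subst h1
          exact (h.enter hl).1 hq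
        · exact (h.compl l hl).elim (fun h2 => h2 hq) (fun h2 => h2 h1)
      · exact Or.inl hq
    · intro hl
      change a.Q.basic r ≠ k at hl
      change a.Q.basic r ∉ Set.range a.P.basic ∧
        a.Q.basic r ∉ Set.range (a.Q.pivot a.enter r).basic
      have h3 : a.Q.basic r ∉ Set.range a.P.basic :=
        (h.compl _ hl).resolve_right (fun h2 => h2 ⟨r, rfl⟩)
      refine ⟨h3, basic_notMem_pivot h.goodQ (fun he => ?_)⟩
      have hk : a.enter ≠ k := he ▸ hl
      exact (h.enter hk).2 ⟨r, he⟩

/-- Along a pivot, every label other than the missing one stays present. -/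
theorem Inv.segment {A B : Fin n → Fin n → ℝ} {k : Label n} {a b : State n} (h : Inv A B k a)
    (hs : a.Step b) (l : Label n) (hl : l ≠ k) :
    (a.P.value l = 0 ∧ b.P.value l = 0) ∨ (a.Q.value l = 0 ∧ b.Q.value l = 0) := by
  rcases hs with ⟨_, r, hr, rfl⟩ | ⟨_, r, hr, rfl⟩
  · by_cases hq : l ∈ Set.range a.Q.basic
    · left
      have h1 := (h.compl l hl).resolve_right (fun h2 => h2 hq)
      refine ⟨a.P.value_eq_zero l h1, Tableau.value_eq_zero _ l (fun h2 => ?_)⟩
      rcases range_pivot h2 with h3 | h3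
      · subst h3
        exact (h.enter hl).2 hq
      · exact h1 h3
    · right
      exact ⟨a.Q.value_eq_zero l hq, a.Q.value_eq_zero l hq⟩
  · by_cases hq : l ∈ Set.range a.P.basic
    · right
      have h1 := (h.compl l hl).resolve_left (fun h2 => h2 hq)
      refine ⟨a.Q.value_eq_zero l h1, Tableau.value_eq_zero _ l (fun h2 => ?_)⟩
      rcases range_pivot h2 with h3 | h3
      · subst h3
        exact (h.enter hl).1 hq
      · exact h1 h3
    · left
      exact ⟨a.P.value_eq_zero l hq, a.P.value_eq_zero l hq⟩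

theorem IsRun.inv {A B : Fin n → Fin n → ℝ} {k : Label n} {s : ℕ} {a : ℕ → State n}
    (h : IsRun A B k s a) : ∀ j ≤ s, Inv A B k (a j) := by
  intro j
  induction j with
  | zero => intro _; rw [h.1]; exact inv_init A B k
  | succ j ih => intro hj; exact (ih (by omega)).step (h.2 j (by omega)).2

theorem sysP {A B : Fin n → Fin n → ℝ} {k : Label n} {a : State n} (h : Inv A B k a) (j : Fin n) :
    ∑ i, (B i j + shift A B) * a.P.value (Sum.inl i) + a.P.value (Sum.inr j) = 1 := by
  have h1 := Tableau.value_sol h.goodP j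
  rw [Fintype.sum_sum_type] at h1
  simpa [init] using h1

theorem sysQ {A B : Fin n → Fin n → ℝ} {k : Label n} {a : State n} (h : Inv A B k a) (i : Fin n) :
    a.Q.value (Sum.inl i) + ∑ j, (A i j + shift A B) * a.Q.value (Sum.inr j) = 1 := by
  have h1 := Tableau.value_sol h.goodQ i
  rw [Fintype.sum_sum_type] at h1
  simpa [init] using h1

/-- The index of a label. -/
def Label.index : Label n → Fin n := Sum.elim id id

/-- The points `x` on the Lemke-Howson path, for payoff matrix `B` shifted by `c`, where `p0` is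
the index of the missing label. -/
structure PathPt {ι : Type*} [Fintype ι] (B : ι → ι → ℝ) (c : ℝ) (p0 : ι) (x : ι → ℝ) : Prop where
  nonneg : ∀ p, 0 ≤ x p
  le : ∀ j, ∑ i, x i * (B i j + c) ≤ 1
  eq : ∀ p, p ≠ p0 → 0 < x p → ∑ i, x i * (B i p + c) = 1

/-- The imitation argument: if `A` is close to the identity matrix then a best row has positive
weight. -/
theorem imitation {A : Fin n → Fin n → ℝ} {δ c : ℝ} (hA : ∀ i j, |A i j - if i = j then 1 else 0| ≤ δ)
    (hδ : 2 * n * δ < 1) {y : Fin n → ℝ} (hy : ∀ j, 0 ≤ y j) (hy0 : ∃ j, y j ≠ 0) (p : Fin n)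
    (hp : ∀ i, ∑ j, (A i j + c) * y j ≤ ∑ j, (A p j + c) * y j) : 0 < y p := by
  have hY : 0 < ∑ j, y j := by
    obtain ⟨j, hj⟩ := hy0
    exact Finset.sum_pos' (fun j _ => hy j) ⟨j, Finset.mem_univ _, lt_of_le_of_ne (hy j) hj.symm⟩
  have hest : ∀ i, |∑ j, (A i j + c) * y j - (y i + c * ∑ j, y j)| ≤ δ * ∑ j, y j := by
    intro i
    have h1 : ∑ j, (A i j + c) * y j - (y i + c * ∑ j, y j) =
        ∑ j, (A i j - if i = j then 1 else 0) * y j := by
      have h2 : y i = ∑ j, (if i = j then 1 else 0) * y j := by simp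
      rw [h2, Finset.mul_sum, ← Finset.sum_add_distrib, ← Finset.sum_sub_distrib]
      refine Finset.sum_congr rfl (fun j _ => ?_)
      by_cases hij : i = j
      · subst hij; simp; ring
      · simp [hij]; ring
    rw [h1, Finset.mul_sum]
    refine (Finset.abs_sum_le_sum_abs _ _).trans (Finset.sum_le_sum (fun j _ => ?_))
    rw [abs_mul, abs_of_nonneg (hy j)]
    exact mul_le_mul_of_nonneg_right (hA i j) (hy j)
  have h3 : ∀ i, y i ≤ y p + 2 * δ * ∑ j, y j := by
    intro i
    have h4 := hp i
    have h5 := abs_le.1 (hest i)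
    have h6 := abs_le.1 (hest p)
    linarith [h5.1, h6.2]
  have h7 : ∑ j, y j ≤ n * (y p + 2 * δ * ∑ j, y j) := by
    calc ∑ j, y j ≤ ∑ _j : Fin n, (y p + 2 * δ * ∑ j, y j) := Finset.sum_le_sum (fun i _ => h3 i)
      _ = n * (y p + 2 * δ * ∑ j, y j) := by
        rw [Finset.sum_const, Finset.card_univ, Fintype.card_fin, nsmul_eq_mul]
  by_contra hneg
  have h8 : y p = 0 := le_antisymm (not_lt.1 hneg) (hy p)
  rw [h8, zero_add] at h7
  nlinarith

theorem pathPt_of_labels {A B : Fin n → Fin n → ℝ} {δ c : ℝ}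
    (hA : ∀ i j, |A i j - if i = j then 1 else 0| ≤ δ) (hδ : 2 * n * δ < 1) {k : Label n}
    {z u : Label n → ℝ} (hz : ∀ l, 0 ≤ z l) (hu : ∀ l, 0 ≤ u l)
    (hP : ∀ j, ∑ i, (B i j + c) * z (Sum.inl i) + z (Sum.inr j) = 1)
    (hQ : ∀ i, u (Sum.inl i) + ∑ j, (A i j + c) * u (Sum.inr j) = 1)
    (hl : ∀ l, l ≠ k → z l = 0 ∨ u l = 0) :
    PathPt B c k.index (fun p => z (Sum.inl p)) := by
  have hsum : ∀ j, ∑ i, z (Sum.inl i) * (B i j + c) = 1 - z (Sum.inr j) := by
    intro j
    rw [← hP j]
    rw [add_sub_cancel_right]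
    exact Finset.sum_congr rfl (fun i _ => mul_comm _ _)
  refine ⟨fun p => hz _, fun j => ?_, fun p hp hxp => ?_⟩
  · rw [hsum]
    linarith [hz (Sum.inr j)]
  · have hk1 : (Sum.inl p : Label n) ≠ k := by
      rintro rfl
      exact hp rfl
    have hk2 : (Sum.inr p : Label n) ≠ k := by
      rintro rfl
      exact hp rfl
    have h1 : u (Sum.inl p) = 0 := (hl _ hk1).resolve_left hxp.ne'
    have h2 := hQ p
    rw [h1, zero_add] at h2
    have h3 : 0 < u (Sum.inr p) := by
      refine imitation (A := A) (δ := δ) (c := c) hA hδ (y := fun j => u (Sum.inr j))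
        (fun j => hu _) ?_ p ?_
      · by_contra hcon
        push Not at hcon
        simp [hcon] at h2
      · intro i
        rw [h2]
        linarith [hQ i, hu (Sum.inl i)]
    have h4 : z (Sum.inr p) = 0 := (hl _ hk2).resolve_right h3.ne'
    rw [hsum, h4, sub_zero]

/-- The path of a run in the coordinates `x`. -/
theorem IsRun.pathPt {A B : Fin n → Fin n → ℝ} {δ : ℝ}
    (hA : ∀ i j, |A i j - if i = j then 1 else 0| ≤ δ) (hδ : 2 * n * δ < 1) {k : Label n} {s : ℕ}
    {a : ℕ → State n} (h : IsRun A B k s a) (j : ℕ) (hj : j < s) (t : ℝ) (ht : t ∈ Set.Icc (0 : ℝ) 1) :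
    PathPt B (shift A B) k.index (fun p => (a j).P.value (Sum.inl p) +
      t * ((a (j + 1)).P.value (Sum.inl p) - (a j).P.value (Sum.inl p))) := by
  have hj1 := h.inv j (by omega)
  have hj2 := h.inv (j + 1) (by omega)
  have hconv : ∀ v w : ℝ, v + t * (w - v) = (1 - t) * v + t * w := fun v w => by ring
  have ht0 := ht.1
  have ht1 : 0 ≤ 1 - t := by linarith [ht.2]
  refine pathPt_of_labels (A := A) hA hδ (k := k)
    (z := fun l => (a j).P.value l + t * ((a (j + 1)).P.value l - (a j).P.value l))
    (u := fun l => (a j).Q.value l + t * ((a (j + 1)).Q.value l - (a j).Q.value l)) ?_ ?_ ?_ ?_ ?_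
  · intro l
    simp only [hconv]
    exact add_nonneg (mul_nonneg ht1 (Tableau.value_nonneg hj1.goodP l))
      (mul_nonneg ht0 (Tableau.value_nonneg hj2.goodP l))
  · intro l
    simp only [hconv]
    exact add_nonneg (mul_nonneg ht1 (Tableau.value_nonneg hj1.goodQ l))
      (mul_nonneg ht0 (Tableau.value_nonneg hj2.goodQ l))
  · intro i
    have h1 := sysP hj1 i
    have h2 := sysP hj2 i
    have h3 : ∑ i', (B i' i + shift A B) * ((a j).P.value (Sum.inl i') +
        t * ((a (j + 1)).P.value (Sum.inl i') - (a j).P.value (Sum.inl i'))) =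
        (1 - t) * ∑ i', (B i' i + shift A B) * (a j).P.value (Sum.inl i') +
        t * ∑ i', (B i' i + shift A B) * (a (j + 1)).P.value (Sum.inl i') := by
      rw [Finset.mul_sum, Finset.mul_sum, ← Finset.sum_add_distrib]
      exact Finset.sum_congr rfl (fun i' _ => by ring)
    rw [h3]
    linear_combination (1 - t) * h1 + t * h2
  · intro i
    have h1 := sysQ hj1 i
    have h2 := sysQ hj2 i
    have h3 : ∑ i', (A i i' + shift A B) * ((a j).Q.value (Sum.inr i') +
        t * ((a (j + 1)).Q.value (Sum.inr i') - (a j).Q.value (Sum.inr i'))) =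
        (1 - t) * ∑ i', (A i i' + shift A B) * (a j).Q.value (Sum.inr i') +
        t * ∑ i', (A i i' + shift A B) * (a (j + 1)).Q.value (Sum.inr i') := by
      rw [Finset.mul_sum, Finset.mul_sum, ← Finset.sum_add_distrib]
      exact Finset.sum_congr rfl (fun i' _ => by ring)
    rw [h3]
    linear_combination (1 - t) * h1 + t * h2
  · intro l hl
    rcases hj1.segment (h.2 j hj).2 l hl with h1 | h1
    · left
      simp only [h1.1, h1.2]
      ring
    · right
      simp only [h1.1, h1.2]
      ring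

/-- At a Nash equilibrium, the support of `x` consists of best responses to `x`. -/
theorem nash_resp {A B : Fin n → Fin n → ℝ} {δ : ℝ}
    (hA : ∀ i j, |A i j - if i = j then 1 else 0| ≤ δ) (hδ : 2 * n * δ < 1) {x y : Fin n → ℝ}
    (h : IsNash A B x y) :
    ∃ V, (∀ j, ∑ i, x i * B i j ≤ V) ∧ ∀ p, 0 < x p → ∑ i, x i * B i p = V := by
  classical
  obtain ⟨hx, hy, h1, h2⟩ := h
  -- pure deviations
  set VA : ℝ := ∑ i, ∑ j, x i * A i j * y j with hVA
  set VB : ℝ := ∑ i, ∑ j, x i * B i j * y j with hVB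
  have e1 : VA = ∑ i, x i * ∑ j, A i j * y j := by
    rw [hVA]
    refine Finset.sum_congr rfl (fun i _ => ?_)
    rw [Finset.mul_sum]
    exact Finset.sum_congr rfl (fun j _ => by ring)
  have e2 : VB = ∑ j, y j * ∑ i, x i * B i j := by
    rw [hVB, Finset.sum_comm]
    refine Finset.sum_congr rfl (fun j _ => ?_)
    rw [Finset.mul_sum]
    exact Finset.sum_congr rfl (fun i _ => by ring)
  have d1 : ∀ i, ∑ j, A i j * y j ≤ VA := by
    intro i
    have h3 := h1 (Pi.single i 1) (single_mem_stdSimplex ℝ i)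
    have h4 : ∑ i', ∑ j, (Pi.single i (1 : ℝ) : Fin n → ℝ) i' * A i' j * y j =
        ∑ j, A i j * y j := by
      rw [Finset.sum_eq_single i]
      · simp
      · intro b _ hb
        simp [Pi.single_eq_of_ne hb]
      · intro hi; exact absurd (Finset.mem_univ _) hi
    rw [h4] at h3
    exact h3
  have d2 : ∀ j, ∑ i, x i * B i j ≤ VB := by
    intro j
    have h3 := h2 (Pi.single j 1) (single_mem_stdSimplex ℝ j)
    have h4 : ∑ i, ∑ j', x i * B i j' * (Pi.single j (1 : ℝ) : Fin n → ℝ) j' =
        ∑ i, x i * B i j := by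
      refine Finset.sum_congr rfl (fun i _ => ?_)
      rw [Finset.sum_eq_single j]
      · simp
      · intro b _ hb
        simp [Pi.single_eq_of_ne hb]
      · intro hi; exact absurd (Finset.mem_univ _) hi
    rw [h4] at h3
    exact h3
  have s1 : ∀ i, 0 < x i → ∑ j, A i j * y j = VA := by
    have h3 : ∑ i, x i * (VA - ∑ j, A i j * y j) = 0 := by
      simp_rw [mul_sub]
      rw [Finset.sum_sub_distrib, ← e1, ← Finset.sum_mul, hx.2]
      ring
    have h4 := (Finset.sum_eq_zero_iff_of_nonneg
      (fun i _ => mul_nonneg (hx.1 i) (sub_nonneg.2 (d1 i)))).1 h3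
    intro i hi
    have h5 := h4 i (Finset.mem_univ _)
    rcases mul_eq_zero.1 h5 with h6 | h6
    · exact absurd h6 hi.ne'
    · linarith
  have s2 : ∀ j, 0 < y j → ∑ i, x i * B i j = VB := by
    have h3 : ∑ j, y j * (VB - ∑ i, x i * B i j) = 0 := by
      simp_rw [mul_sub]
      rw [Finset.sum_sub_distrib, ← e2, ← Finset.sum_mul, hy.2]
      ring
    have h4 := (Finset.sum_eq_zero_iff_of_nonneg
      (fun i _ => mul_nonneg (hy.1 i) (sub_nonneg.2 (d2 i)))).1 h3
    intro i hi
    have h5 := h4 i (Finset.mem_univ _)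
    rcases mul_eq_zero.1 h5 with h6 | h6
    · exact absurd h6 hi.ne'
    · linarith
  refine ⟨VB, d2, fun p hp => s2 p ?_⟩
  refine imitation (A := A) (δ := δ) (c := 0) hA hδ hy.1 ?_ p ?_
  · by_contra hcon
    push Not at hcon
    have := hy.2
    simp [hcon] at this
  · intro i
    simp only [add_zero]
    rw [s1 p hp]
    exact d1 i

end Pool.Agent.LH
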