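import Pool.Agent.Lib.MP_159703_lc.Robust

/-!
# From the robust lower bound to smoothed complexity
-/

namespace Pool.Agent.LH

open Finset MeasureTheory ProbabilityTheory

/-- A polynomial is eventually below the exponential function. -/
theorem poly_isLittleO (q : Polynomial ℝ) :
    (fun n : ℕ => q.eval (n : ℝ)) =o[Filter.atTop] (fun n : ℕ => (2 : ℝ) ^ n) := by
  induction q using Polynomial.induction_on' with
  | add p q hp hq =>
    simp only [Polynomial.eval_add]
    exact hp.add hq
  | monomial k a =>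
    simp only [Polynomial.eval_monomial]
    exact (isLittleO_pow_const_const_pow_of_one_lt k (by norm_num)).const_mul_left a

theorem exists_large (q : Polynomial ℝ) : ∃ m : ℕ, 1 ≤ m ∧ q.eval (m : ℝ) < 2 ^ m / 2 := by
  have h1 := (poly_isLittleO q).def (show (0 : ℝ) < 1 / 4 by norm_num)
  obtain ⟨m, hm1, hm2⟩ := (h1.and (Filter.eventually_ge_atTop 1)).exists
  refine ⟨m, hm2, ?_⟩
  have h2 : q.eval (m : ℝ) ≤ ‖q.eval (m : ℝ)‖ := le_abs_self _
  have h3 : ‖(2 : ℝ) ^ m‖ = 2 ^ m := by
    rw [Real.norm_eq_abs, abs_of_pos (by positivity)]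
  rw [h3] at hm1
  have h4 : (0 : ℝ) < 2 ^ m := by positivity
  linarith

theorem eval_comp (p : MvPolynomial (Fin 2) ℝ) (P1 P2 : Polynomial ℝ) (t : ℝ) :
    (MvPolynomial.aeval ![P1, P2] p).eval t = MvPolynomial.eval ![P1.eval t, P2.eval t] p := by
  induction p using MvPolynomial.induction_on with
  | C a => simp
  | add p q hp hq => simp [hp, hq]
  | mul_X p i hp =>
    rw [map_mul, Polynomial.eval_mul, hp, map_mul]
    congr 1
    fin_cases i <;> simp

/-- If all perturbation variables are small with probability at least `1 / 2`, then the expected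
number of pivots is at least `2 ^ m / 2`. -/
theorem expected_ge {m : ℕ} (hm : 1 ≤ m) (ν : Measure ℝ) [IsProbabilityMeasure ν]
    (hν : ENNReal.ofReal (1 / 2) ≤
      (Measure.pi fun _ : Fin 2 × Fin (size m) × Fin (size m) => ν)
        (Set.pi Set.univ fun _ => Set.Icc (-radius m) (radius m))) :
    ENNReal.ofReal (2 ^ m / 2) ≤ ∫⁻ R : Fin 2 × Fin (size m) × Fin (size m) → ℝ,
      (((⨅ k, pivots (fun i j => hardA m i j + R (0, i, j)) (fun i j => hardB m i j + R (1, i, j)) k :
        ℕ∞)) : ENNReal) ∂(Measure.pi fun _ => ν) := by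
  set G : Set (Fin 2 × Fin (size m) × Fin (size m) → ℝ) :=
    Set.pi Set.univ fun _ => Set.Icc (-radius m) (radius m) with hG
  have hGm : MeasurableSet G := MeasurableSet.univ_pi (fun _ => measurableSet_Icc)
  calc ENNReal.ofReal (2 ^ m / 2) = ENNReal.ofReal (2 ^ m) * ENNReal.ofReal (1 / 2) := by
        rw [← ENNReal.ofReal_mul (by positivity)]
        congr 1
        ring
    _ ≤ ENNReal.ofReal (2 ^ m) * (Measure.pi fun _ => ν) G := by gcongr
    _ = ∫⁻ _R in G, ENNReal.ofReal (2 ^ m) ∂(Measure.pi fun _ => ν) := by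
        rw [MeasureTheory.setLIntegral_const]
    _ ≤ ∫⁻ R in G, (((⨅ k, pivots (fun i j => hardA m i j + R (0, i, j))
          (fun i j => hardB m i j + R (1, i, j)) k : ℕ∞)) : ENNReal) ∂(Measure.pi fun _ => ν) := by
        refine MeasureTheory.setLIntegral_mono' hGm (fun R hR => ?_)
        have hR' : ∀ l, |R l| ≤ radius m := by
          intro l
          have := hR l (Set.mem_univ _)
          exact abs_le.2 this
        have h1 : ((2 ^ m : ℕ) : ℕ∞) ≤ ⨅ k, pivots (fun i j => hardA m i j + R (0, i, j))
            (fun i j => hardB m i j + R (1, i, j)) k := by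
          apply two_pow_le_pivots hm
          · intro i j
            rw [add_sub_cancel_left]
            exact hR' _
          · intro i j
            rw [add_sub_cancel_left]
            exact hR' _
        have h2 : ENNReal.ofReal (2 ^ m) = (((2 ^ m : ℕ) : ℕ∞) : ENNReal) := by
          rw [ENNReal.ofReal_pow (by norm_num)]
          simp
        rw [h2]
        exact ENat.toENNReal_mono h1
    _ ≤ _ := MeasureTheory.setLIntegral_le_lintegral _ _

/-- If for suitable magnitudes `σ m`, with `1 / σ m` a polynomial in `m`, all perturbation variables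
are small with probability at least `1 / 2`, then there is no polynomial bound. -/
theorem not_polynomial (noise : ℝ → Measure ℝ) (sig : ℕ → ℝ) (P : Polynomial ℝ)
    (hsig : ∀ m, 0 < sig m) (hP : ∀ m : ℕ, P.eval (m : ℝ) = 1 / sig m)
    (hprob : ∀ m, IsProbabilityMeasure (noise (sig m)))
    (hnoise : ∀ m : ℕ, 1 ≤ m → ENNReal.ofReal (1 / 2) ≤
      (Measure.pi fun _ : Fin 2 × Fin (size m) × Fin (size m) => noise (sig m))
        (Set.pi Set.univ fun _ => Set.Icc (-radius m) (radius m))) :
    ¬ PolynomialSmoothedComplexity noise (fun _ A B => ⨅ k, pivots A B k) := by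
  rintro ⟨p, hp⟩
  set q : Polynomial ℝ := MvPolynomial.aeval ![6 * (Polynomial.X + 1), P] p with hq
  obtain ⟨m, hm, hlt⟩ := exists_large q
  have h1 := hp (size m) (by unfold size; omega) (sig m) (hsig m) (hardA m) (hardB m)
    (hardA_mem m) (hardB_mem hm)
  have := hprob m
  have h2 := (expected_ge hm (noise (sig m)) (hnoise m hm)).trans h1
  have h3 : q.eval (m : ℝ) = MvPolynomial.eval ![(size m : ℝ), 1 / sig m] p := by
    rw [hq, eval_comp, hP, size_cast]
    simp
  rw [← h3] at h2
  have h4 : (0 : ℝ) < 2 ^ m / 2 := by positivity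
  rcases le_or_gt (q.eval (m : ℝ)) 0 with h5 | h5
  · rw [ENNReal.ofReal_of_nonpos h5] at h2
    simp only [nonpos_iff_eq_zero, ENNReal.ofReal_eq_zero] at h2
    linarith
  · rw [ENNReal.ofReal_le_ofReal_iff h5.le] at h2
    linarith

theorem uniform_prob {σ : ℝ} (hσ : 0 < σ) : IsProbabilityMeasure (uniformNoise σ) := by
  unfold uniformNoise
  apply cond_isProbabilityMeasure_of_finite
  · rw [Real.volume_Icc]
    simp
    linarith
  · rw [Real.volume_Icc]
    exact ENNReal.ofReal_ne_top

theorem uniform_icc {σ : ℝ} (hσ : 0 < σ) : uniformNoise σ (Set.Icc (-σ) σ) = 1 := by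
  unfold uniformNoise
  apply cond_apply_self
  · rw [Real.volume_Icc]
    simp
    linarith
  · rw [Real.volume_Icc]
    exact ENNReal.ofReal_ne_top

theorem gaussian_prob (σ : ℝ) : IsProbabilityMeasure (gaussianNoise σ) := by
  unfold gaussianNoise
  infer_instance

theorem gaussian_tail {σ a : ℝ} (ha : 0 < a) :
    gaussianNoise σ (Set.Icc (-a) a)ᶜ ≤ ENNReal.ofReal (σ ^ 2 / a ^ 2) := by
  have hp := gaussian_prob σ
  have h1 := meas_ge_le_variance_div_sq (μ := gaussianNoise σ) (X := fun x : ℝ => x)
    (by unfold gaussianNoise; exact memLp_id_gaussianReal 2) ha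
  have h2 : Var[fun x : ℝ => x; gaussianNoise σ] = σ ^ 2 := by
    unfold gaussianNoise
    rw [variance_fun_id_gaussianReal, Real.coe_toNNReal _ (sq_nonneg σ)]
  have h3 : ∫ x, x ∂(gaussianNoise σ) = 0 := by
    unfold gaussianNoise
    rw [integral_id_gaussianReal]
  rw [h2, h3] at h1
  refine (measure_mono ?_).trans h1
  intro x hx
  simp only [sub_zero, Set.mem_ofPred_eq]
  by_contra hcon
  push Not at hcon
  exact hx (abs_le.1 hcon.le)

/-- The probability that all Gaussian variables are small. -/
theorem gaussian_box {N : ℕ} {σ a : ℝ} (ha : 0 < a) (hN : 0 < N)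
    (hσ : σ ^ 2 / a ^ 2 = 1 / (4 * (N : ℝ) ^ 2)) :
    ENNReal.ofReal (1 / 2) ≤ (Measure.pi fun _ : Fin 2 × Fin N × Fin N => gaussianNoise σ)
      (Set.pi Set.univ fun _ => Set.Icc (-a) a) := by
  have hp := gaussian_prob σ
  have hNr : (0 : ℝ) < N := by exact_mod_cast hN
  rw [Measure.pi_pi]
  simp only [Finset.prod_const, Finset.card_univ, Fintype.card_prod, Fintype.card_fin]
  have h1 : ENNReal.ofReal (1 - 1 / (4 * (N : ℝ) ^ 2)) ≤ gaussianNoise σ (Set.Icc (-a) a) := by
    have h2 := gaussian_tail (σ := σ) ha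
    rw [hσ] at h2
    have h3 := prob_compl_eq_one_sub (μ := gaussianNoise σ) (measurableSet_Icc (a := -a) (b := a)).compl
    rw [compl_compl] at h3
    rw [h3, ENNReal.ofReal_sub _ (by positivity), ENNReal.ofReal_one]
    exact tsub_le_tsub_left h2 _
  have hge : (-2 : ℝ) ≤ -(1 / (4 * (N : ℝ) ^ 2)) := by
    have h5 : 1 / (4 * (N : ℝ) ^ 2) ≤ 1 := by
      rw [div_le_one (by positivity)]
      have : (1 : ℝ) ≤ N := by exact_mod_cast hN
      nlinarith
    linarith
  calc ENNReal.ofReal (1 / 2) ≤ ENNReal.ofReal ((1 - 1 / (4 * (N : ℝ) ^ 2)) ^ (2 * (N * N))) := by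
        apply ENNReal.ofReal_le_ofReal
        have h4 := one_add_mul_le_pow hge (2 * (N * N))
        have h5 : (1 : ℝ) + ((2 * (N * N) : ℕ) : ℝ) * -(1 / (4 * (N : ℝ) ^ 2)) = 1 / 2 := by
          push_cast
          field_simp
          ring
        rw [h5] at h4
        rw [sub_eq_add_neg]
        exact h4
    _ = ENNReal.ofReal (1 - 1 / (4 * (N : ℝ) ^ 2)) ^ (2 * (N * N)) := by
        rw [ENNReal.ofReal_pow]
        have h5 : 1 / (4 * (N : ℝ) ^ 2) ≤ 1 := by
          rw [div_le_one (by positivity)]
          have : (1 : ℝ) ≤ N := by exact_mod_cast hN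
          nlinarith
        linarith
    _ ≤ _ := pow_le_pow_left₀ (zero_le) h1 _

theorem not_polynomial_uniform :
    ¬ PolynomialSmoothedComplexity uniformNoise (fun _ A B => ⨅ k, pivots A B k) := by
  refine not_polynomial uniformNoise radius (2304 * (Polynomial.X + 1)) radius_pos ?_
    (fun m => uniform_prob (radius_pos m)) ?_
  · intro m
    unfold radius
    simp
  · intro m _
    have := uniform_prob (radius_pos m)
    rw [Measure.pi_pi]
    simp only [uniform_icc (radius_pos m), Finset.prod_const_one]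
    rw [← ENNReal.ofReal_one]
    exact ENNReal.ofReal_le_ofReal (by norm_num)

theorem not_polynomial_gaussian :
    ¬ PolynomialSmoothedComplexity gaussianNoise (fun _ A B => ⨅ k, pivots A B k) := by
  refine not_polynomial gaussianNoise (fun m => radius m / (2 * size m))
    (2304 * (Polynomial.X + 1) * (12 * (Polynomial.X + 1))) ?_ ?_
    (fun m => gaussian_prob _) ?_
  · intro m
    have h1 := radius_pos m
    have h2 : (0 : ℝ) < size m := by rw [size_cast]; positivity
    positivity
  · intro m
    have h2 : (0 : ℝ) < (m : ℝ) + 1 := by positivity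
    simp only [Polynomial.eval_mul, Polynomial.eval_add, Polynomial.eval_X, Polynomial.eval_one,
      Polynomial.eval_ofNat]
    unfold radius
    rw [size_cast]
    field_simp
    ring
  · intro m _
    have h1 := radius_pos m
    have h2 : (0 : ℝ) < size m := by rw [size_cast]; positivity
    apply gaussian_box h1 (by unfold size; omega)
    field_simp
    ring

end Pool.Agent.LH
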