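import Pool.Agent.Lib.MP_159703_lc.Run

/-!
# Correctness of the Lemke-Howson algorithm for nondegenerate games

This is the classical theorem; it shows that the definitions in `Defs` are not vacuous.
-/

namespace Pool.Agent.LH

open Finset

variable {n : ℕ}

/-- Strong form of `Good`: the two tableaux have the same solutions. -/
structure Tableau.Good2 (t0 t : Tableau n) : Prop extends Tableau.Good t0 t where
  sol' : ∀ z : Label n → ℝ, (∀ r, ∑ l, t0.coef r l * z l = t0.rhs r) →
    ∀ r, ∑ l, t.coef r l * z l = t.rhs r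

/-- A nondegenerate bounded system. -/
structure Tableau.Nice (t0 : Tableau n) : Prop where
  refl : t0.Good t0
  nondeg : ∀ z : Label n → ℝ, (∀ l, 0 ≤ z l) → (∀ r, ∑ l, t0.coef r l * z l = t0.rhs r) →
    n ≤ (univ.filter (fun l => z l ≠ 0)).card
  bdd : ∃ K : ℝ, ∀ z : Label n → ℝ, (∀ l, 0 ≤ z l) →
    (∀ r, ∑ l, t0.coef r l * z l = t0.rhs r) → ∀ l, z l ≤ K

theorem Tableau.Good2.pivot {t0 t : Tableau n} (h : t0.Good2 t) {e : Label n} {r : Fin n}
    (hr : t.IsPivotRow e r) : t0.Good2 (t.pivot e r) := by
  refine ⟨h.toGood.pivot hr, fun z hz r' => ?_⟩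
  have h1 := h.sol' z hz
  have hpos := hr.1
  have h2 : ∑ l, t.coef r l / t.coef r e * z l = t.rhs r / t.coef r e := by
    rw [← h1 r, Finset.sum_div]
    exact Finset.sum_congr rfl (fun l _ => by ring)
  simp only [Tableau.pivot]
  by_cases hr' : r' = r
  · simp only [if_pos hr']
    exact h2
  · simp only [if_neg hr']
    have h3 : ∑ l, (t.coef r' l - t.coef r' e * (t.coef r l / t.coef r e)) * z l =
        (∑ l, t.coef r' l * z l) - t.coef r' e * (∑ l, t.coef r l / t.coef r e * z l) := by
      rw [Finset.mul_sum, ← Finset.sum_sub_distrib]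
      exact Finset.sum_congr rfl (fun l _ => by ring)
    rw [h3, h2, h1 r']

theorem Tableau.value_basic {t0 t : Tableau n} (h : t0.Good t) (r : Fin n) :
    t.value (t.basic r) = t.rhs r := by
  unfold Tableau.value
  rw [Finset.sum_eq_single r]
  · simp
  · intro r' _ hne
    rw [if_neg (fun h' => hne (h.injective h'))]
  · intro h'; exact absurd (Finset.mem_univ _) h'

theorem Tableau.rhs_pos {t0 t : Tableau n} (hn : t0.Nice) (h : t0.Good t) (r : Fin n) :
    0 < t.rhs r := by
  refine lt_of_le_of_ne (h.nonneg r) (fun h0 => ?_)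
  have h1 := hn.nondeg t.value (fun l => Tableau.value_nonneg h l) (fun r => Tableau.value_sol h r)
  have h2 : (univ.filter (fun l => t.value l ≠ 0)) ⊆ (univ.erase r).image t.basic := by
    intro l hl
    rw [mem_filter] at hl
    have h3 : l ∈ Set.range t.basic := by
      by_contra hcon
      exact hl.2 (t.value_eq_zero l hcon)
    obtain ⟨r', rfl⟩ := h3
    rw [mem_image]
    refine ⟨r', ?_, rfl⟩
    rw [mem_erase]
    refine ⟨?_, mem_univ _⟩
    rintro rfl
    rw [Tableau.value_basic h] at hl
    exact hl.2 h0.symm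
  have h3 := (Finset.card_le_card h2).trans Finset.card_image_le
  rw [card_erase_of_mem (mem_univ _), card_univ, Fintype.card_fin] at h3
  have h4 : 0 < n := Fin.pos r
  omega

/-- The direction of the edge along which the nonbasic variable `e` enters. -/
noncomputable def Tableau.dir (t : Tableau n) (e l : Label n) : ℝ :=
  (if l = e then 1 else 0) - ∑ r, if t.basic r = l then t.coef r e else 0

theorem Tableau.dir_sol {t0 t : Tableau n} (h : t0.Good t) (e : Label n) (r : Fin n) :
    ∑ l, t.coef r l * t.dir e l = 0 := by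
  unfold Tableau.dir
  simp_rw [mul_sub, Finset.mul_sum]
  rw [Finset.sum_sub_distrib, Finset.sum_comm]
  have h1 : ∀ r' ∈ (univ : Finset (Fin n)),
      ∑ l, t.coef r l * (if t.basic r' = l then t.coef r' e else 0) =
        if r = r' then t.coef r e else 0 := by
    intro r' _
    rw [Finset.sum_eq_single (t.basic r')]
    · rw [if_pos rfl, h.unit]
      by_cases hrr : r = r'
      · subst hrr; simp
      · simp [hrr]
    · intro l _ hl
      rw [if_neg (fun h => hl h.symm), mul_zero]
    · intro h; exact absurd (Finset.mem_univ _) h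
  rw [Finset.sum_congr rfl h1]
  simp

theorem Tableau.dir_basic {t0 t : Tableau n} (h : t0.Good t) {e : Label n}
    (he : e ∉ Set.range t.basic) (r : Fin n) : t.dir e (t.basic r) = - t.coef r e := by
  unfold Tableau.dir
  rw [if_neg (fun h' => he ⟨r, h'⟩), zero_sub]
  congr 1
  rw [Finset.sum_eq_single r]
  · simp
  · intro r' _ hne
    rw [if_neg (fun h' => hne (h.injective h'))]
  · intro h'; exact absurd (Finset.mem_univ _) h'

theorem Tableau.dir_self (t : Tableau n) {e : Label n} (he : e ∉ Set.range t.basic) :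
    t.dir e e = 1 := by
  unfold Tableau.dir
  rw [if_pos rfl, Finset.sum_eq_zero, sub_zero]
  intro r _
  rw [if_neg (fun h' => he ⟨r, h'⟩)]

theorem Tableau.dir_other (t : Tableau n) {e l : Label n} (hl : l ∉ Set.range t.basic)
    (hle : l ≠ e) : t.dir e l = 0 := by
  unfold Tableau.dir
  rw [if_neg hle, Finset.sum_eq_zero, sub_zero]
  intro r _
  rw [if_neg (fun h' => hl ⟨r, h'⟩)]

theorem Tableau.exists_pivotRow {t0 t : Tableau n} (hn : t0.Nice) (h : t0.Good t) {e : Label n}
    (he : e ∉ Set.range t.basic) : ∃ r, t.IsPivotRow e r := by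
  by_cases hex : ∃ r, 0 < t.coef r e
  · obtain ⟨r0, hr0⟩ := hex
    obtain ⟨r, hr, hmin⟩ := Finset.exists_min_image (univ.filter (fun r => 0 < t.coef r e))
      (fun r => t.rhs r / t.coef r e) ⟨r0, by simp [hr0]⟩
    rw [mem_filter] at hr
    exact ⟨r, hr.2, fun r' hr' => hmin r' (by simp [hr'])⟩
  · exfalso
    push Not at hex
    obtain ⟨K, hK⟩ := hn.bdd
    set τ : ℝ := |K| + 1 with hτ
    have hτ0 : 0 ≤ τ := by positivity
    have h1 := hK (fun l => t.value l + τ * t.dir e l) ?_ ?_ e
    · simp only [t.value_eq_zero e he, t.dir_self he] at h1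
      have := le_abs_self K
      linarith
    · intro l
      by_cases hl : l ∈ Set.range t.basic
      · obtain ⟨r, rfl⟩ := hl
        simp only [Tableau.dir_basic h he]
        have h2 := Tableau.value_nonneg h (t.basic r)
        have h3 := mul_nonneg hτ0 (neg_nonneg.2 (hex r))
        linarith
      · by_cases hle : l = e
        · subst hle
          simp only [t.value_eq_zero l hl, t.dir_self hl]
          linarith
        · simp only [t.value_eq_zero l hl, t.dir_other hl hle]
          simp
    · apply h.sol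
      intro r
      simp_rw [mul_add]
      rw [Finset.sum_add_distrib]
      have h2 : ∑ l, t.coef r l * t.value l = t.rhs r := by
        unfold Tableau.value
        simp_rw [Finset.mul_sum]
        rw [Finset.sum_comm]
        have h3 : ∀ r' ∈ (univ : Finset (Fin n)),
            ∑ l, t.coef r l * (if t.basic r' = l then t.rhs r' else 0) =
              if r = r' then t.rhs r else 0 := by
          intro r' _
          rw [Finset.sum_eq_single (t.basic r')]
          · rw [if_pos rfl, h.unit]
            by_cases hrr : r = r'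
            · subst hrr; simp
            · simp [hrr]
          · intro l _ hl
            rw [if_neg (fun h => hl h.symm), mul_zero]
          · intro h; exact absurd (Finset.mem_univ _) h
        rw [Finset.sum_congr rfl h3]
        simp
      have h3 : ∑ l, t.coef r l * (τ * t.dir e l) = τ * ∑ l, t.coef r l * t.dir e l := by
        rw [Finset.mul_sum]
        exact Finset.sum_congr rfl (fun l _ => by ring)
      rw [h2, h3, Tableau.dir_sol h]
      ring

theorem Tableau.pivotRow_unique {t0 t : Tableau n} (hn : t0.Nice) (h : t0.Good t) {e : Label n}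
    {r r' : Fin n} (hr : t.IsPivotRow e r) (hr' : t.IsPivotRow e r') : r = r' := by
  by_contra hne
  have h1 := Tableau.rhs_pos hn (h.pivot hr) r'
  simp only [Tableau.pivot, if_neg (fun h => hne (Eq.symm h))] at h1
  have h2 := hr'.2 r hr.1
  have h3 : t.coef r' e * (t.rhs r' / t.coef r' e) = t.rhs r' := mul_div_cancel₀ _ hr'.1.ne'
  have h4 := mul_le_mul_of_nonneg_left h2 hr'.1.le
  rw [h3] at h4
  linarith

/-- Two tableaux with the same basis agree up to the order of the rows. -/
theorem Tableau.ext_of_range {t0 t1 t2 : Tableau n} (h1 : t0.Good2 t1) (h2 : t0.Good2 t2)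
    (hr : Set.range t1.basic = Set.range t2.basic) {r1 r2 : Fin n}
    (hb : t1.basic r1 = t2.basic r2) :
    (∀ l, t1.coef r1 l = t2.coef r2 l) ∧ t1.rhs r1 = t2.rhs r2 := by
  -- a solution of `t1` is a solution of `t2`
  have key : ∀ z : Label n → ℝ, (∀ r, ∑ l, t1.coef r l * z l = t1.rhs r) →
      ∑ l, t2.coef r2 l * z l = t2.rhs r2 := fun z hz => h2.sol' z (h1.sol z hz) r2
  -- evaluate the equation `r2` of `t2`
  have hval : ∀ z : Label n → ℝ, (∀ l, l ∉ Set.range t2.basic → z l = 0) →
      ∑ l, t2.coef r2 l * z l = z (t2.basic r2) := by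
    intro z hz
    rw [Finset.sum_eq_single (t2.basic r2)]
    · rw [h2.unit, if_pos rfl, one_mul]
    · intro l _ hl
      by_cases hm : l ∈ Set.range t2.basic
      · obtain ⟨r, rfl⟩ := hm
        rw [h2.unit, if_neg (fun h => hl (by rw [h])), zero_mul]
      · rw [hz l hm, mul_zero]
    · intro h; exact absurd (Finset.mem_univ _) h
  have hvs : ∀ r, ∑ l, t1.coef r l * t1.value l = t1.rhs r := by
    intro r
    exact h1.sol' _ (fun r => Tableau.value_sol h1.toGood r) r
  have hrhs : t1.rhs r1 = t2.rhs r2 := by
    have h3 := key t1.value hvs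
    rw [hval _ (fun l hl => t1.value_eq_zero l (by rw [hr]; exact hl)), ← hb,
      Tableau.value_basic h1.toGood] at h3
    exact h3
  refine ⟨fun l => ?_, hrhs⟩
  by_cases hl : l ∈ Set.range t1.basic
  · obtain ⟨r, rfl⟩ := hl
    have hl2 : t1.basic r ∈ Set.range t2.basic := by rw [← hr]; exact ⟨r, rfl⟩
    obtain ⟨r', hr'⟩ := hl2
    rw [h1.unit]
    rw [← hr', h2.unit]
    by_cases hrr : r1 = r
    · subst hrr
      rw [if_pos rfl, if_pos]
      exact h2.injective (hb.symm.trans hr'.symm)
    · rw [if_neg hrr, if_neg]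
      rintro rfl
      exact hrr (h1.injective (hb.trans hr'))
  · have h3 := key (fun l' => t1.value l' + t1.dir l l') (fun r => by
      simp_rw [mul_add]
      rw [Finset.sum_add_distrib, hvs, Tableau.dir_sol h1.toGood, add_zero])
    simp_rw [mul_add] at h3
    rw [Finset.sum_add_distrib,
      hval _ (fun l hl => t1.value_eq_zero l (by rw [hr]; exact hl)), ← hb,
      Tableau.value_basic h1.toGood, hrhs] at h3
    have hl2 : l ∉ Set.range t2.basic := by rw [← hr]; exact hl
    have h4 : ∑ l', t2.coef r2 l' * t1.dir l l' =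
        t2.coef r2 l + ∑ l', t2.coef r2 l' * (t1.dir l l' - if l' = l then 1 else 0) := by
      simp_rw [mul_sub]
      rw [Finset.sum_sub_distrib]
      simp
    rw [h4, hval _ (fun l' hl' => ?_), ← hb, Tableau.dir_basic h1.toGood hl,
      if_neg (fun h' => hl ⟨r1, h'⟩)] at h3
    · linarith
    · by_cases hll : l' = l
      · subst hll
        rw [t1.dir_self hl, if_pos rfl, sub_self]
      · rw [t1.dir_other (by rw [hr]; exact hl') hll, if_neg hll, sub_zero]

/-- Pivoting back. -/
theorem Tableau.pivot_pivot {t0 t : Tableau n} (h : t0.Good t) {e : Label n} {r : Fin n}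
    (hr : t.IsPivotRow e r) : (t.pivot e r).pivot (t.basic r) r = t := by
  have hne : t.coef r e ≠ 0 := hr.1.ne'
  have h1 : t.coef r (t.basic r) = 1 := by rw [h.unit, if_pos rfl]
  have h2 : ∀ r', r' ≠ r → t.coef r' (t.basic r) = 0 := fun r' hr' => by
    rw [h.unit, if_neg hr']
  rcases t with ⟨coef, rhs, basic⟩
  simp only [Tableau.pivot] at *
  congr 1
  · funext r' l
    by_cases hr' : r' = r
    · subst hr'
      simp [h1]
      field_simp
    · simp [hr', h1, h2 r' hr']
      field_simp
      ring
  · funext r'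
    by_cases hr' : r' = r
    · subst hr'
      simp [h1]
      field_simp
    · simp [hr', h1, h2 r' hr']
      field_simp
      ring
  · funext r'
    by_cases hr' : r' = r
    · subst hr'; simp
    · simp [hr']

theorem Tableau.isPivotRow_pivot {t0 t : Tableau n} (h : t0.Good t) {e : Label n} {r : Fin n}
    (hr : t.IsPivotRow e r) : (t.pivot e r).IsPivotRow (t.basic r) r := by
  have hpos := hr.1
  have h1 : t.coef r (t.basic r) = 1 := by rw [h.unit, if_pos rfl]
  have h2 : ∀ r', r' ≠ r → t.coef r' (t.basic r) = 0 := fun r' hr' => by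
    rw [h.unit, if_neg hr']
  constructor
  · simp only [Tableau.pivot, if_true, h1]
    positivity
  · intro r' hr'
    by_cases hrr : r' = r
    · rw [hrr]
    · simp only [Tableau.pivot, if_true, h1, if_neg hrr, h2 r' hrr] at hr' ⊢
      have h3 : t.coef r' e < 0 := by
        by_contra hcon
        push Not at hcon
        have : 0 ≤ t.coef r' e * (1 / t.coef r e) := by positivity
        linarith
      have h4 := h.nonneg r'
      have h5 := h.nonneg r
      have h6 : t.rhs r / t.coef r e / (1 / t.coef r e) = t.rhs r := by field_simp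
      rw [h6, le_div_iff₀ hr']
      have h7 : t.rhs r * (0 - t.coef r' e * (1 / t.coef r e)) =
          - (t.coef r' e * (t.rhs r / t.coef r e)) := by ring
      rw [h7]
      linarith

theorem Tableau.range_pivot_eq {t0 t : Tableau n} (h : t0.Good t) (e : Label n) (r : Fin n) :
    Set.range (t.pivot e r).basic = insert e (Set.range t.basic \ {t.basic r}) := by
  ext l
  simp only [Set.mem_range, Tableau.pivot, Set.mem_insert_iff, Set.mem_sdiff,
    Set.mem_singleton_iff]
  constructor
  · rintro ⟨r', hr'⟩
    by_cases h1 : r' = r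
    · rw [if_pos h1] at hr'
      exact Or.inl hr'.symm
    · rw [if_neg h1] at hr'
      refine Or.inr ⟨⟨r', hr'⟩, fun h2 => h1 (h.injective (hr'.trans h2))⟩
  · rintro (rfl | ⟨⟨r', hr'⟩, h2⟩)
    · exact ⟨r, if_pos rfl⟩
    · refine ⟨r', ?_⟩
      rw [if_neg]
      · exact hr'
      · rintro rfl
        exact h2 hr'.symm

theorem shift_bound (A B : Fin n → Fin n → ℝ) (i j : Fin n) :
    1 ≤ A i j + shift A B ∧ 1 ≤ B i j + shift A B := by
  have h1 : |A i j| + |B i j| ≤ ∑ j, (|A i j| + |B i j|) :=
    Finset.single_le_sum (f := fun j => |A i j| + |B i j|)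
      (fun _ _ => by positivity) (Finset.mem_univ j)
  have h2 : ∑ j, (|A i j| + |B i j|) ≤ ∑ i, ∑ j, (|A i j| + |B i j|) :=
    Finset.single_le_sum (f := fun i => ∑ j, (|A i j| + |B i j|))
      (fun _ _ => Finset.sum_nonneg (fun _ _ => by positivity)) (Finset.mem_univ i)
  unfold shift
  have h3 := neg_abs_le (A i j)
  have h4 := neg_abs_le (B i j)
  have h5 := abs_nonneg (A i j)
  have h6 := abs_nonneg (B i j)
  constructor <;> linarith

/-- Counting argument behind nondegeneracy. -/
theorem count_nonzero {C : Fin n → Fin n → ℝ} {c : ℝ}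
    (hC : ∀ x ∈ stdSimplex ℝ (Fin n), Nat.card {j // ∀ j', ∑ i, C j' i * x i ≤ ∑ i, C j i * x i} ≤
      Nat.card {i // x i ≠ 0}) {x s : Fin n → ℝ} (hx : ∀ i, 0 ≤ x i) (hs : ∀ j, 0 ≤ s j)
    (heq : ∀ j, ∑ i, (C j i + c) * x i + s j = 1) :
    n ≤ (univ.filter (fun i => x i ≠ 0)).card + (univ.filter (fun j => s j ≠ 0)).card := by
  classical
  have h0 : (univ.filter (fun j => s j = 0)).card + (univ.filter (fun j => s j ≠ 0)).card = n := by
    have := Finset.card_filter_add_card_filter_not (s := (univ : Finset (Fin n)))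
      (fun j => s j = 0)
    rw [Finset.card_univ, Fintype.card_fin] at this
    exact this
  have key : (univ.filter (fun j => s j = 0)).card ≤ (univ.filter (fun i => x i ≠ 0)).card := by
    rcases Finset.eq_empty_or_nonempty (univ.filter (fun j => s j = 0)) with h1 | ⟨j0, hj0⟩
    · rw [h1]; simp
    · rw [mem_filter] at hj0
      have hX0 : 0 ≤ ∑ i, x i := Finset.sum_nonneg (fun i _ => hx i)
      have hX : 0 < ∑ i, x i := by
        rcases lt_or_eq_of_le hX0 with h | h
        · exact h
        · exfalso
          have h2 := (Finset.sum_eq_zero_iff_of_nonneg (fun i _ => hx i)).1 h.symm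
          have h3 := heq j0
          rw [hj0.2, Finset.sum_eq_zero (fun i hi => by rw [h2 i hi, mul_zero])] at h3
          norm_num at h3
      set X := ∑ i, x i with hXdef
      have hmem : (fun i => x i / X) ∈ stdSimplex ℝ (Fin n) := by
        refine ⟨fun i => div_nonneg (hx i) hX.le, ?_⟩
        rw [← Finset.sum_div, ← hXdef, div_self hX.ne']
      have h2 := hC _ hmem
      have hsum : ∀ j, ∑ i, C j i * (x i / X) = (1 - s j - c * X) / X := by
        intro j
        have h3 := heq j
        have h4 : ∑ i, (C j i + c) * x i = ∑ i, C j i * x i + c * X := by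
          rw [hXdef, Finset.mul_sum, ← Finset.sum_add_distrib]
          exact Finset.sum_congr rfl (fun i _ => by ring)
        have h5 : ∑ i, C j i * (x i / X) = (∑ i, C j i * x i) / X := by
          rw [Finset.sum_div]
          exact Finset.sum_congr rfl (fun i _ => by ring)
        rw [h5]
        congr 1
        linarith
      have h3 : (univ.filter (fun j => s j = 0)).card ≤
          Nat.card {j // ∀ j', ∑ i, C j' i * (x i / X) ≤ ∑ i, C j i * (x i / X)} := by
        rw [Nat.card_eq_fintype_card, Fintype.card_subtype]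
        refine Finset.card_le_card (fun j hj => ?_)
        rw [mem_filter] at hj ⊢
        refine ⟨mem_univ _, fun j' => ?_⟩
        rw [hsum, hsum, hj.2]
        apply div_le_div_of_nonneg_right _ hX.le
        linarith [hs j']
      have h4 : Nat.card {i // x i / X ≠ 0} = (univ.filter (fun i => x i ≠ 0)).card := by
        rw [Nat.card_eq_fintype_card, Fintype.card_subtype]
        congr 1
        ext i
        simp [hX.ne']
      rw [h4] at h2
      exact h3.trans h2
  omega

theorem card_sum_filter (z : Label n → ℝ) : (univ.filter (fun l => z l ≠ 0)).card =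
    (univ.filter (fun i => z (Sum.inl i) ≠ 0)).card +
      (univ.filter (fun j => z (Sum.inr j) ≠ 0)).card := by
  rw [Finset.card_filter, Finset.card_filter, Finset.card_filter, Fintype.sum_sum_type]

theorem niceP {A B : Fin n → Fin n → ℝ} (h : Nondegenerate A B) (k : Label n) :
    (init A B k).P.Nice := by
  refine ⟨(inv_init A B k).goodP, ?_, ⟨1, ?_⟩⟩
  · intro z hz hs
    rw [card_sum_filter]
    refine count_nonzero (C := fun j i => B i j) (c := shift A B) ?_ (fun i => hz _) (fun j => hz _)
      (fun j => ?_)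
    · intro x hx
      have h1 := h.1 x hx
      simp_rw [fun (i j : Fin n) => mul_comm (x i) (B i j)] at h1
      exact h1
    · have h1 := hs j
      rw [Fintype.sum_sum_type] at h1
      simpa [init] using h1
  · intro z hz hs l
    have hrow : ∀ j, ∑ i, (B i j + shift A B) * z (Sum.inl i) + z (Sum.inr j) = 1 := by
      intro j
      have h1 := hs j
      rw [Fintype.sum_sum_type] at h1
      simpa [init] using h1
    have hterm : ∀ i j, z (Sum.inl i) ≤ (B i j + shift A B) * z (Sum.inl i) := by
      intro i j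
      nlinarith [(shift_bound A B i j).2, hz (Sum.inl i)]
    have hnn : ∀ i j, 0 ≤ (B i j + shift A B) * z (Sum.inl i) :=
      fun i j => (hz _).trans (hterm i j)
    rcases l with i | j
    · have h1 := Finset.single_le_sum (f := fun i' => (B i' i + shift A B) * z (Sum.inl i'))
        (fun i' _ => hnn i' i) (Finset.mem_univ i)
      have h2 := hrow i
      have h3 := hz (Sum.inr i)
      have h4 := hterm i i
      linarith
    · have h1 := Finset.sum_nonneg (s := univ) (fun i' _ => hnn i' j)
      have h2 := hrow j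
      linarith

theorem niceQ {A B : Fin n → Fin n → ℝ} (h : Nondegenerate A B) (k : Label n) :
    (init A B k).Q.Nice := by
  refine ⟨(inv_init A B k).goodQ, ?_, ⟨1, ?_⟩⟩
  · intro z hz hs
    rw [card_sum_filter, add_comm]
    refine count_nonzero (C := fun i j => A i j) (c := shift A B) h.2 (fun i => hz _)
      (fun j => hz _) (fun i => ?_)
    have h1 := hs i
    rw [Fintype.sum_sum_type] at h1
    rw [add_comm]
    simpa [init] using h1
  · intro z hz hs l
    have hrow : ∀ i, z (Sum.inl i) + ∑ j, (A i j + shift A B) * z (Sum.inr j) = 1 := by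
      intro i
      have h1 := hs i
      rw [Fintype.sum_sum_type] at h1
      simpa [init] using h1
    have hterm : ∀ i j, z (Sum.inr j) ≤ (A i j + shift A B) * z (Sum.inr j) := by
      intro i j
      nlinarith [(shift_bound A B i j).1, hz (Sum.inr j)]
    have hnn : ∀ i j, 0 ≤ (A i j + shift A B) * z (Sum.inr j) :=
      fun i j => (hz _).trans (hterm i j)
    rcases l with i | j
    · have h1 := Finset.sum_nonneg (s := univ) (fun j' _ => hnn i j')
      have h2 := hrow i
      linarith
    · have h1 := Finset.single_le_sum (f := fun j' => (A j j' + shift A B) * z (Sum.inr j'))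
        (fun j' _ => hnn j j') (Finset.mem_univ j)
      have h2 := hrow j
      have h3 := hz (Sum.inl j)
      have h4 := hterm j j
      linarith

/-- Invariants together with the converse solution property. -/
structure Core (A B : Fin n → Fin n → ℝ) (k : Label n) (a : State n) : Prop where
  inv : Inv A B k a
  goodP : (init A B k).P.Good2 a.P
  goodQ : (init A B k).Q.Good2 a.Q

/-- The entering variable is not basic in its system. -/
def NB (a : State n) : Prop :=
  (a.inP = true → a.enter ∉ Set.range a.P.basic) ∧ (a.inP = false → a.enter ∉ Set.range a.Q.basic)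

/-- Change the system of the next pivot. -/
def flip (a : State n) : State n := { a with inP := !a.inP }

/-- The same bases, side and entering variable. -/
def Eqv (a b : State n) : Prop :=
  Set.range a.P.basic = Set.range b.P.basic ∧ Set.range a.Q.basic = Set.range b.Q.basic ∧
    a.inP = b.inP ∧ a.enter = b.enter

variable {A B : Fin n → Fin n → ℝ} {k : Label n}

theorem core_init : Core A B k (init A B k) :=
  ⟨inv_init A B k, ⟨(inv_init A B k).goodP, fun _ h => h⟩, ⟨(inv_init A B k).goodQ, fun _ h => h⟩⟩

theorem nb_init : NB (init A B k) := by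
  rcases k with k | k
  · refine ⟨fun _ => ?_, fun h => ?_⟩
    · rintro ⟨r, hr⟩
      simp [init] at hr
    · simp [init] at h
  · refine ⟨fun h => ?_, fun _ => ?_⟩
    · simp [init] at h
    · rintro ⟨r, hr⟩
      simp [init] at hr

theorem Core.step {a b : State n} (h : Core A B k a) (hs : a.Step b) : Core A B k b := by
  refine ⟨h.inv.step hs, ?_, ?_⟩
  · rcases hs with ⟨_, r, hr, rfl⟩ | ⟨_, r, hr, rfl⟩
    · exact h.goodP.pivot hr
    · exact h.goodP
  · rcases hs with ⟨_, r, hr, rfl⟩ | ⟨_, r, hr, rfl⟩
    · exact h.goodQ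
    · exact h.goodQ.pivot hr

theorem Core.flip {a : State n} (h : Core A B k a) : Core A B k (flip a) :=
  ⟨⟨h.inv.goodP, h.inv.goodQ, h.inv.compl, h.inv.enter⟩, h.goodP, h.goodQ⟩

theorem flip_flip (a : State n) : flip (flip a) = a := by
  unfold LH.flip
  simp

theorem Eqv.flip {a b : State n} (h : Eqv a b) : Eqv (flip a) (flip b) :=
  ⟨h.1, h.2.1, by unfold LH.flip; simp [h.2.2.1], h.2.2.2⟩

theorem nb_of_ne {b : State n} (h : Core A B k b) (hne : b.enter ≠ k) : NB b :=
  ⟨fun _ => (h.inv.enter hne).1, fun _ => (h.inv.enter hne).2⟩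

theorem nb_flip {a b : State n} (h : Core A B k a) (hnb : NB a) (hs : a.Step b) : NB (flip b) := by
  rcases hs with ⟨hi, r, hr, rfl⟩ | ⟨hi, r, hr, rfl⟩
  · refine ⟨fun _ => ?_, fun h' => ?_⟩
    · refine basic_notMem_pivot h.inv.goodP (fun he => ?_)
      exact hnb.1 hi ⟨r, he⟩
    · simp [LH.flip] at h'
  · refine ⟨fun h' => ?_, fun _ => ?_⟩
    · simp [LH.flip] at h'
    · refine basic_notMem_pivot h.inv.goodQ (fun he => ?_)
      exact hnb.2 hi ⟨r, he⟩

theorem step_flip {a b : State n} (h : Core A B k a) (hs : a.Step b) :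
    (flip b).Step (flip a) := by
  rcases hs with ⟨hi, r, hr, rfl⟩ | ⟨hi, r, hr, rfl⟩
  · left
    refine ⟨by simp [LH.flip], r, ?_, ?_⟩
    · exact Tableau.isPivotRow_pivot h.inv.goodP hr
    · unfold LH.flip
      simp only
      have h1 := Tableau.pivot_pivot h.inv.goodP hr
      rw [h1, hi]
      congr 1
      simp [Tableau.pivot]
  · right
    refine ⟨by simp [LH.flip], r, ?_, ?_⟩
    · exact Tableau.isPivotRow_pivot h.inv.goodQ hr
    · unfold LH.flip
      simp only
      have h1 := Tableau.pivot_pivot h.inv.goodQ hr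
      rw [h1, hi]
      congr 1
      simp [Tableau.pivot]

/-- The leaving variable depends only on the basis. -/
theorem leaving_unique {t0 t1 t2 : Tableau n} (hn : t0.Nice) (h1 : t0.Good2 t1)
    (h2 : t0.Good2 t2) (hr : Set.range t1.basic = Set.range t2.basic) {e : Label n}
    {r1 r2 : Fin n} (hr1 : t1.IsPivotRow e r1) (hr2 : t2.IsPivotRow e r2) :
    t1.basic r1 = t2.basic r2 := by
  have hm : t1.basic r1 ∈ Set.range t2.basic := by rw [← hr]; exact ⟨r1, rfl⟩
  obtain ⟨r, hr'⟩ := hm
  have e1 := Tableau.ext_of_range h1 h2 hr hr'.symm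
  have hp : t2.IsPivotRow e r := by
    refine ⟨by rw [← e1.1]; exact hr1.1, fun r' hpos => ?_⟩
    have hm' : t2.basic r' ∈ Set.range t1.basic := by rw [hr]; exact ⟨r', rfl⟩
    obtain ⟨r'', hr''⟩ := hm'
    have e2 := Tableau.ext_of_range h1 h2 hr hr''
    rw [← e1.1, ← e1.2, ← e2.1, ← e2.2]
    apply hr1.2
    rw [e2.1]
    exact hpos
  rw [← hr', Tableau.pivotRow_unique hn h2.toGood hp hr2]

theorem det {a b a' b' : State n} (hnd : Nondegenerate A B) (ha : Core A B k a)
    (hb : Core A B k b) (he : Eqv a b) (hsa : a.Step a') (hsb : b.Step b') : Eqv a' b' := by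
  obtain ⟨e1, e2, e3, e4⟩ := he
  rcases hsa with ⟨hi, r, hr, rfl⟩ | ⟨hi, r, hr, rfl⟩
  · rcases hsb with ⟨hi', r', hr', rfl⟩ | ⟨hi', r', hr', rfl⟩
    · rw [← e4] at hr'
      have hl := leaving_unique (niceP hnd k) ha.goodP hb.goodP e1 hr hr'
      refine ⟨?_, e2, rfl, hl⟩
      simp only
      rw [Tableau.range_pivot_eq ha.inv.goodP, Tableau.range_pivot_eq hb.inv.goodP, e1, e4, hl]
    · rw [e3, hi'] at hi; exact absurd hi (by decide)
  · rcases hsb with ⟨hi', r', hr', rfl⟩ | ⟨hi', r', hr', rfl⟩
    · rw [e3, hi'] at hi; exact absurd hi (by decide)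
    · rw [← e4] at hr'
      have hl := leaving_unique (niceQ hnd k) ha.goodQ hb.goodQ e2 hr hr'
      refine ⟨e1, ?_, rfl, hl⟩
      simp only
      rw [Tableau.range_pivot_eq ha.inv.goodQ, Tableau.range_pivot_eq hb.inv.goodQ, e2, e4, hl]

theorem inj {a b a' b' : State n} (hnd : Nondegenerate A B) (ha : Core A B k a)
    (hb : Core A B k b) (hsa : a.Step a') (hsb : b.Step b') (he : Eqv a' b') : Eqv a b := by
  have h1 := det hnd (ha.step hsa).flip (hb.step hsb).flip he.flip (step_flip ha hsa)
    (step_flip hb hsb)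
  have h2 := h1.flip
  rwa [flip_flip, flip_flip] at h2

theorem exists_step {a : State n} (hnd : Nondegenerate A B) (ha : Core A B k a) (hnb : NB a) :
    ∃ b, a.Step b := by
  cases hi : a.inP
  · obtain ⟨r, hr⟩ := Tableau.exists_pivotRow (niceQ hnd k) ha.inv.goodQ (hnb.2 hi)
    exact ⟨_, Or.inr ⟨hi, r, hr, rfl⟩⟩
  · obtain ⟨r, hr⟩ := Tableau.exists_pivotRow (niceP hnd k) ha.inv.goodP (hnb.1 hi)
    exact ⟨_, Or.inl ⟨hi, r, hr, rfl⟩⟩

theorem step_inP {a b : State n} (hs : a.Step b) : b.inP = !a.inP := by
  rcases hs with ⟨hi, r, hr, rfl⟩ | ⟨hi, r, hr, rfl⟩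
  · simp [hi]
  · simp [hi]

/-- The run stops. -/
theorem exists_stop (hnd : Nondegenerate A B) (k : Label n) :
    ∃ (a : ℕ → State n) (L : ℕ), 1 ≤ L ∧ IsRun A B k L a ∧ (a L).enter = k ∧
      ∀ j < L, Core A B k (a j) ∧ NB (a j) ∧ (a j).Step (a (j + 1)) := by
  classical
  let next : State n → State n := fun (a : State n) =>
    if h : ∃ b : State n, a.Step b then h.choose else a
  have hnext : ∀ a : State n, (∃ b : State n, a.Step b) → a.Step (next a) := by
    intro a h
    have h1 : next a = h.choose := dif_pos h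
    rw [h1]
    exact h.choose_spec
  let a : ℕ → State n := fun j => next^[j] (init A B k)
  have ha0 : a 0 = init A B k := rfl
  have hasucc : ∀ j, a (j + 1) = next (a j) := fun j => Function.iterate_succ_apply' next j _
  have hex : ∃ L, 1 ≤ L ∧ (a L).enter = k := by
    by_contra hcon
    push Not at hcon
    have hall : ∀ j, Core A B k (a j) ∧ NB (a j) ∧ (a j).Step (a (j + 1)) := by
      intro j
      induction j with
      | zero =>
        have h1 : Core A B k (a 0) := by rw [ha0]; exact core_init
        have h2 : NB (a 0) := by rw [ha0]; exact nb_init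
        refine ⟨h1, h2, ?_⟩
        rw [hasucc]
        exact hnext _ (exists_step hnd h1 h2)
      | succ j ih =>
        have h1 := ih.1.step ih.2.2
        have h2 := nb_of_ne h1 (hcon (j + 1) (by omega))
        refine ⟨h1, h2, ?_⟩
        rw [hasucc (j + 1)]
        exact hnext _ (exists_step hnd h1 h2)
    let f : ℕ → Set (Label n) × Set (Label n) × Bool × Label n :=
      fun j => (Set.range (a j).P.basic, Set.range (a j).Q.basic, (a j).inP, (a j).enter)
    obtain ⟨i, j, hij, hf⟩ := Finite.exists_ne_map_eq_of_infinite f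
    have heq : ∀ i j, f i = f j → Eqv (a i) (a j) := by
      intro i j h
      simp only [f, Prod.mk.injEq] at h
      exact h
    have hdesc : ∀ i d, Eqv (a i) (a (i + d)) → Eqv (a 0) (a d) := by
      intro i
      induction i with
      | zero => intro d h; rwa [zero_add] at h
      | succ i ih =>
        intro d h
        apply ih
        have h' : i + 1 + d = i + d + 1 := by omega
        rw [h'] at h
        exact inj hnd (hall i).1 (hall (i + d)).1 (hall i).2.2 (hall (i + d)).2.2 h
    have hmain : ∀ i j, i < j → Eqv (a i) (a j) → False := by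
      intro i j hlt h
      obtain ⟨d, rfl⟩ := Nat.exists_eq_add_of_lt hlt
      have h1 := hdesc i (d + 1) h
      have h2 := h1.2.2.2
      exact hcon (d + 1) (by omega) (by rw [← h2, ha0]; rfl)
    rcases Nat.lt_or_gt_of_ne hij with h | h
    · exact hmain i j h (heq i j hf)
    · exact hmain j i h (heq j i hf.symm)
  let L := Nat.find hex
  have hL := Nat.find_spec hex
  have hmin : ∀ j, 1 ≤ j → j < L → (a j).enter ≠ k := by
    intro j hj1 hjL h
    exact Nat.find_min hex hjL ⟨hj1, h⟩
  have hall : ∀ j, j < L → Core A B k (a j) ∧ NB (a j) ∧ (a j).Step (a (j + 1)) := by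
    intro j
    induction j with
    | zero =>
      intro _
      have h1 : Core A B k (a 0) := by rw [ha0]; exact core_init
      have h2 : NB (a 0) := by rw [ha0]; exact nb_init
      refine ⟨h1, h2, ?_⟩
      rw [hasucc]
      exact hnext _ (exists_step hnd h1 h2)
    | succ j ih =>
      intro hj
      have ih' := ih (by omega)
      have h1 := ih'.1.step ih'.2.2
      have h2 := nb_of_ne h1 (hmin (j + 1) (by omega) hj)
      refine ⟨h1, h2, ?_⟩
      rw [hasucc (j + 1)]
      exact hnext _ (exists_step hnd h1 h2)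
  refine ⟨a, L, hL.1, ⟨ha0, fun j hj => ⟨fun hj0 => hmin j (by omega) hj, (hall j hj).2.2⟩⟩,
    hL.2, hall⟩

/-- At the end of the run the bases are not the initial ones. -/
theorem not_initial (hnd : Nondegenerate A B) {a : ℕ → State n} {L : ℕ} (hL1 : 1 ≤ L)
    (ha0 : a 0 = init A B k) (hend : (a L).enter = k)
    (hall : ∀ j < L, Core A B k (a j) ∧ NB (a j) ∧ (a j).Step (a (j + 1))) :
    ¬ (Set.range (a L).P.basic = Set.range (Sum.inr : Fin n → Label n) ∧
      Set.range (a L).Q.basic = Set.range (Sum.inl : Fin n → Label n)) := by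
  rintro ⟨hP, hQ⟩
  obtain ⟨L', rfl⟩ : ∃ L', L = L' + 1 := ⟨L - 1, by omega⟩
  have hlast := hall L' (by omega)
  have hnbf := nb_flip hlast.1 hlast.2.1 hlast.2.2
  -- the flipped last state is equivalent to the initial one
  have hE0 : Eqv (flip (a (L' + 1))) (a 0) := by
    rw [ha0]
    refine ⟨hP, hQ, ?_, hend⟩
    have hk : (flip (a (L' + 1))).enter = k := hend
    rcases k with k | k
    · by_contra hne
      have h1 : (flip (a (L' + 1))).inP = false := by
        have : (init A B (Sum.inl k)).inP = true := rfl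
        rw [this] at hne
        simpa using hne
      apply hnbf.2 h1
      rw [hk]
      change (Sum.inl k : Label n) ∈ Set.range (a (L' + 1)).Q.basic
      rw [hQ]
      exact ⟨k, rfl⟩
    · by_contra hne
      have h1 : (flip (a (L' + 1))).inP = true := by
        have : (init A B (Sum.inr k)).inP = false := rfl
        rw [this] at hne
        simpa using hne
      apply hnbf.1 h1
      rw [hk]
      change (Sum.inr k : Label n) ∈ Set.range (a (L' + 1)).P.basic
      rw [hP]
      exact ⟨k, rfl⟩
  have hcoreL : Core A B k (a (L' + 1)) := hlast.1.step hlast.2.2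
  have hcore : ∀ j ≤ L' + 1, Core A B k (a j) := by
    intro j hj
    rcases Nat.lt_or_eq_of_le hj with h | h
    · exact (hall j h).1
    · rw [h]; exact hcoreL
  have hback : ∀ j ≤ L' + 1, Eqv (flip (a (L' + 1 - j))) (a j) := by
    intro j
    induction j with
    | zero => intro _; exact hE0
    | succ j ih =>
      intro hj
      have ih' := ih (by omega)
      obtain ⟨i, hi⟩ : ∃ i, L' + 1 - j = i + 1 := ⟨L' - j, by omega⟩
      have hi' : L' + 1 - (j + 1) = i := by omega
      rw [hi'] 
      rw [hi] at ih'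
      have hs1 := step_flip (hall i (by omega)).1 (hall i (by omega)).2.2
      exact det hnd (hcore (i + 1) (by omega)).flip (hcore j (by omega)) ih' hs1
        (hall j (by omega)).2.2
  have hpar : ∀ j ≤ L' + 1, (a j).inP = xor (a 0).inP (decide (j % 2 = 1)) := by
    intro j
    induction j with
    | zero => intro _; simp
    | succ j ih =>
      intro hj
      rw [step_inP (hall j (by omega)).2.2, ih (by omega)]
      rcases Nat.mod_two_eq_zero_or_one j with h | h
      · have : (j + 1) % 2 = 1 := by omega
        simp [h, this]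
      · have : (j + 1) % 2 = 0 := by omega
        simp [h, this]
  -- the number of steps is odd
  have hodd : (L' + 1) % 2 = 1 := by
    have h1 := hE0.2.2.1
    have h2 := hpar (L' + 1) le_rfl
    unfold LH.flip at h1
    simp only at h1
    rw [h2] at h1
    rcases Nat.mod_two_eq_zero_or_one (L' + 1) with h | h
    · rw [h] at h1
      simp at h1
    · exact h
  obtain ⟨r, hr⟩ : ∃ r, L' + 1 = 2 * r + 1 := ⟨L' / 2, by omega⟩
  have hmid := hback r (by omega)
  have hmid' : L' + 1 - r = r + 1 := by omega
  rw [hmid'] at hmid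
  have hs := (hall r (by omega))
  obtain ⟨m1, m2, _, _⟩ := hmid
  change Set.range (a (r + 1)).P.basic = Set.range (a r).P.basic at m1
  change Set.range (a (r + 1)).Q.basic = Set.range (a r).Q.basic at m2
  rcases hs.2.2 with ⟨hi, r', hr', heq⟩ | ⟨hi, r', hr', heq⟩
  · apply hs.2.1.1 hi
    rw [← m1, heq]
    refine ⟨r', ?_⟩
    simp [Tableau.pivot]
  · apply hs.2.1.2 hi
    rw [← m2, heq]
    refine ⟨r', ?_⟩
    simp [Tableau.pivot]


/-- One half of the equilibrium condition. -/
theorem best_response {C : Fin n → Fin n → ℝ} {c : ℝ} {x y r : Fin n → ℝ} (hx : ∀ i, 0 ≤ x i)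
    (hr : ∀ i, 0 ≤ r i) (hX : 0 < ∑ i, x i) (hY : 0 < ∑ j, y j)
    (heq : ∀ i, r i + ∑ j, (C i j + c) * y j = 1) (hc : ∀ i, x i = 0 ∨ r i = 0)
    (x' : Fin n → ℝ) (hx' : x' ∈ stdSimplex ℝ (Fin n)) :
    ∑ i, ∑ j, x' i * C i j * (y j / ∑ j, y j) ≤
      ∑ i, ∑ j, (x i / ∑ i, x i) * C i j * (y j / ∑ j, y j) := by
  set X := ∑ i, x i with hXd
  set Y := ∑ j, y j with hYd
  have hrow : ∀ i, ∑ j, C i j * (y j / Y) = (1 - r i) / Y - c := by
    intro i
    have h1 := heq i
    have h2 : ∑ j, (C i j + c) * y j = ∑ j, C i j * y j + c * Y := by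
      rw [hYd, Finset.mul_sum, ← Finset.sum_add_distrib]
      exact Finset.sum_congr rfl (fun j _ => by ring)
    have h3 : ∑ j, C i j * (y j / Y) = (∑ j, C i j * y j) / Y := by
      rw [Finset.sum_div]
      exact Finset.sum_congr rfl (fun j _ => by ring)
    rw [h3]
    rw [h2] at h1
    field_simp
    linarith
  have hL : ∀ z : Fin n → ℝ, ∑ i, ∑ j, z i * C i j * (y j / Y) =
      ∑ i, z i * ((1 - r i) / Y - c) := by
    intro z
    refine Finset.sum_congr rfl (fun i _ => ?_)
    rw [← hrow i, Finset.mul_sum]
    exact Finset.sum_congr rfl (fun j _ => by ring)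
  rw [hL, hL]
  have h1 : ∑ i, x' i * ((1 - r i) / Y - c) ≤ ∑ i, x' i * (1 / Y - c) := by
    refine Finset.sum_le_sum (fun i _ => ?_)
    refine mul_le_mul_of_nonneg_left ?_ (hx'.1 i)
    have : (1 - r i) / Y ≤ 1 / Y := div_le_div_of_nonneg_right (by linarith [hr i]) hY.le
    linarith
  have h2 : ∑ i, x' i * (1 / Y - c) = 1 / Y - c := by
    rw [← Finset.sum_mul, hx'.2, one_mul]
  have h3 : ∑ i, x i / X * ((1 - r i) / Y - c) = ∑ i, x i / X * (1 / Y - c) := by
    refine Finset.sum_congr rfl (fun i _ => ?_)
    rcases hc i with h | h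
    · rw [h]; simp
    · rw [h, sub_zero]
  have h4 : ∑ i, x i / X * (1 / Y - c) = 1 / Y - c := by
    rw [← Finset.sum_mul, ← Finset.sum_div, ← hXd, div_self hX.ne', one_mul]
  rw [h3, h4]
  exact h1.trans h2.le

/-- The Lemke-Howson algorithm finds a Nash equilibrium of every nondegenerate game, for every
missing label (Lemke and Howson, 1964). -/
theorem pivots_lt_top (hnd : Nondegenerate A B) (k : Label n) : pivots A B k < ⊤ := by
  obtain ⟨a, L, hL1, hrun, hend, hall⟩ := exists_stop hnd k
  have hni := not_initial hnd hL1 hrun.1 hend hall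
  obtain ⟨L', rfl⟩ : ∃ L', L = L' + 1 := ⟨L - 1, by omega⟩
  have hlast := hall L' (by omega)
  have hnbf := nb_flip hlast.1 hlast.2.1 hlast.2.2
  have hcore : Core A B k (a (L' + 1)) := hlast.1.step hlast.2.2
  set b := a (L' + 1) with hb
  have hcompl : ∀ l, l ∉ Set.range b.P.basic ∨ l ∉ Set.range b.Q.basic := by
    intro l
    by_cases hl : l = k
    · rw [hl]
      have hk : (flip b).enter = k := hend
      cases hi : (flip b).inP
      · right
        have := hnbf.2 hi
        rwa [hk] at this
      · left
        have := hnbf.1 hi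
        rwa [hk] at this
    · exact hcore.inv.compl l hl
  have hval : ∀ l, b.P.value l = 0 ∨ b.Q.value l = 0 := fun l =>
    (hcompl l).imp (b.P.value_eq_zero l) (b.Q.value_eq_zero l)
  have hP0 := Tableau.value_nonneg hcore.inv.goodP
  have hQ0 := Tableau.value_nonneg hcore.inv.goodQ
  have hsysP := sysP hcore.inv
  have hsysQ := sysQ hcore.inv
  -- the strategies are not zero
  have hxy : (∀ i, b.P.value (Sum.inl i) = 0) → (∀ j, b.Q.value (Sum.inr j) = 0) → False := by
    intro hx hy
    apply hni
    have hs : ∀ j, b.P.value (Sum.inr j) = 1 := by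
      intro j
      have h1 := hsysP j
      rw [Finset.sum_eq_zero (fun i _ => by rw [hx i, mul_zero]), zero_add] at h1
      exact h1
    have hr : ∀ i, b.Q.value (Sum.inl i) = 1 := by
      intro i
      have h1 := hsysQ i
      rw [Finset.sum_eq_zero (fun j _ => by rw [hy j, mul_zero]), add_zero] at h1
      exact h1
    constructor
    · ext l
      rcases l with i | j
      · refine ⟨?_, ?_⟩
        · rintro ⟨r, h⟩
          have h1 := Tableau.rhs_pos (niceP hnd k) hcore.inv.goodP r
          rw [← Tableau.value_basic hcore.inv.goodP r, h, hx i] at h1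
          exact absurd h1 (lt_irrefl _)
        · rintro ⟨r, h⟩
          exact absurd h (by simp)
      · refine ⟨fun _ => ⟨j, rfl⟩, fun _ => ?_⟩
        by_contra hcon
        have h1 := b.P.value_eq_zero _ hcon
        rw [hs j] at h1
        exact one_ne_zero h1
    · ext l
      rcases l with i | j
      · refine ⟨fun _ => ⟨i, rfl⟩, fun _ => ?_⟩
        by_contra hcon
        have h1 := b.Q.value_eq_zero _ hcon
        rw [hr i] at h1
        exact one_ne_zero h1
      · refine ⟨?_, ?_⟩
        · rintro ⟨r, h⟩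
          have h1 := Tableau.rhs_pos (niceQ hnd k) hcore.inv.goodQ r
          rw [← Tableau.value_basic hcore.inv.goodQ r, h, hy j] at h1
          exact absurd h1 (lt_irrefl _)
        · rintro ⟨r, h⟩
          exact absurd h (by simp)
  have hx : ¬ ∀ i, b.P.value (Sum.inl i) = 0 := by
    intro hx
    refine hxy hx (fun j => ?_)
    have h1 := hsysP j
    rw [Finset.sum_eq_zero (fun i _ => by rw [hx i, mul_zero]), zero_add] at h1
    exact (hval (Sum.inr j)).resolve_left (by rw [h1]; exact one_ne_zero)
  have hy : ¬ ∀ j, b.Q.value (Sum.inr j) = 0 := by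
    intro hy
    refine hxy (fun i => ?_) hy
    have h1 := hsysQ i
    rw [Finset.sum_eq_zero (fun j _ => by rw [hy j, mul_zero]), add_zero] at h1
    exact (hval (Sum.inl i)).resolve_right (by rw [h1]; exact one_ne_zero)
  have hX : 0 < ∑ i, b.P.value (Sum.inl i) := by
    refine lt_of_le_of_ne (Finset.sum_nonneg (fun i _ => hP0 _)) (fun h => hx ?_)
    intro i
    exact (Finset.sum_eq_zero_iff_of_nonneg (fun i _ => hP0 (Sum.inl i))).1 h.symm i (mem_univ _)
  have hY : 0 < ∑ j, b.Q.value (Sum.inr j) := by
    refine lt_of_le_of_ne (Finset.sum_nonneg (fun i _ => hQ0 _)) (fun h => hy ?_)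
    intro j
    exact (Finset.sum_eq_zero_iff_of_nonneg (fun j _ => hQ0 (Sum.inr j))).1 h.symm j (mem_univ _)
  have hnash : IsNash A B b.x b.y := by
    refine ⟨⟨fun i => div_nonneg (hP0 _) hX.le, ?_⟩, ⟨fun j => div_nonneg (hQ0 _) hY.le, ?_⟩,
      ?_, ?_⟩
    · unfold State.x
      rw [← Finset.sum_div, div_self hX.ne']
    · unfold State.y
      rw [← Finset.sum_div, div_self hY.ne']
    · intro x' hx'
      exact best_response (c := shift A B) (fun i => hP0 (Sum.inl i)) (fun i => hQ0 (Sum.inl i))
        hX hY hsysQ (fun i => hval (Sum.inl i)) x' hx'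
    · intro y' hy'
      have h1 := best_response (C := fun j i => B i j) (c := shift A B)
        (fun j => hQ0 (Sum.inr j)) (fun j => hP0 (Sum.inr j))
        hY hX (fun j => by rw [add_comm]; exact hsysP j) (fun j => (hval (Sum.inr j)).symm) y' hy'
      have h2 : ∀ z : Fin n → ℝ, ∑ i, ∑ j, b.x i * B i j * z j =
          ∑ j, ∑ i, z j * B i j * (b.P.value (Sum.inl i) / ∑ i, b.P.value (Sum.inl i)) := by
        intro z
        rw [Finset.sum_comm]
        refine Finset.sum_congr rfl (fun j _ => Finset.sum_congr rfl (fun i _ => ?_))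
        unfold State.x
        ring
      rw [h2, h2]
      exact h1
  refine lt_of_le_of_lt (iInf_le_of_le (L' + 1) (iInf_le_of_le a (iInf_le_of_le hrun
    (iInf_le_of_le hnash le_rfl)))) ?_
  exact WithTop.coe_lt_top _

end Pool.Agent.LH
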